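import Mathlib
import Pool.Agent.Helper28.Haar2

/-!
# From zonal positive definite functions to quadratic forms (helper167, MP_b5f63d_co)

If a function `v` of the inner product has dual size at most `D` on a thin shell, then the kernel
`v(⟨x,y⟩)` has operator norm at most `D vs` on the functions of the direction.  Proof by averaging
over the orthogonal group.
-/

set_option autoImplicit false
set_option linter.unusedSectionVars false

open MeasureTheory Filter Topology

namespace Pool.Agent.Q167.KS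

open Pool.Agent.Helper28

attribute [local instance] compactSpace_UG secondCountable_UG measUG borelUG

section gen

variable {E : Type} [NormedAddCommGroup E] [InnerProductSpace ℝ E] [CompleteSpace E]
  [FiniteDimensional ℝ E] [MeasurableSpace E] [BorelSpace E]

/-- the direction -/
noncomputable def dir (x : E) : E := ‖x‖⁻¹ • x

/-- Haar measure -/
noncomputable def mu (E : Type) [NormedAddCommGroup E] [InnerProductSpace ℝ E] [CompleteSpace E]
  [FiniteDimensional ℝ E] : Measure (unitary (E →L[ℝ] E)) := Measure.haar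

instance : IsFiniteMeasure (mu E) := by unfold mu; infer_instance

lemma mu_pos : 0 < (mu E).real Set.univ := by
  unfold mu
  have h : (Measure.haar : Measure (unitary (E →L[ℝ] E))) Set.univ ≠ 0 := by
    have := isOpen_univ.measure_pos (Measure.haar : Measure (unitary (E →L[ℝ] E))) Set.univ_nonempty
    exact this.ne'
  exact ENNReal.toReal_pos h (measure_ne_top _ _)

lemma dir_measurable : Measurable (dir : E → E) := by
  unfold dir
  exact (measurable_norm.inv).smul measurable_id

lemma dir_norm_le (x : E) : ‖dir x‖ ≤ 1 := by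
  unfold dir
  rw [norm_smul, norm_inv, norm_norm]
  rcases eq_or_ne x 0 with h | h
  · simp [h]
  · rw [inv_mul_cancel₀ (norm_ne_zero_iff.2 h)]

lemma dir_norm {x : E} (h : x ≠ 0) : ‖dir x‖ = 1 := by
  unfold dir
  rw [norm_smul, norm_inv, norm_norm, inv_mul_cancel₀ (norm_ne_zero_iff.2 h)]

lemma dir_act (Q : unitary (E →L[ℝ] E)) (x : E) : dir (act Q x) = act Q (dir x) := by
  unfold dir
  rw [act_norm]
  have := act_lin Q ‖x‖⁻¹ 0 x 0
  simpa using this.symm

lemma dir_inner (x y : E) : inner ℝ (dir x) (dir y) = inner ℝ x y / (‖x‖ * ‖y‖) := by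
  unfold dir
  rw [real_inner_smul_left, real_inner_smul_right]
  rw [div_eq_mul_inv, mul_inv]
  ring

/-- the shell -/
def SH (E : Type) [NormedAddCommGroup E] (r : ℝ) : Set E := {x | r < ‖x‖ ∧ ‖x‖ < 1}

lemma shell_meas (r : ℝ) : MeasurableSet (SH E r) := by
  unfold SH
  exact (measurableSet_lt measurable_const measurable_norm).inter
    (measurableSet_lt measurable_norm measurable_const)

lemma shell_fin (r : ℝ) : (volume : Measure E) (SH E r) ≠ ⊤ := by
  refine ((measure_mono ?_).trans_lt (measure_ball_lt_top (x := (0 : E)) (r := 1))).ne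
  intro x hx
  rw [mem_ball_zero_iff]
  exact hx.2

lemma shell_ne {r : ℝ} (hr : 0 ≤ r) {x : E} (hx : x ∈ SH E r) : x ≠ 0 := by
  intro h
  have := hx.1
  rw [h, norm_zero] at this
  linarith

/-- the measure on the shell -/
noncomputable def nu (E : Type) [NormedAddCommGroup E] [InnerProductSpace ℝ E]
  [FiniteDimensional ℝ E] [MeasurableSpace E] [BorelSpace E] (r : ℝ) : Measure E :=
  volume.restrict (SH E r)

instance (r : ℝ) : IsFiniteMeasure (nu E r) := by
  refine ⟨?_⟩
  unfold nu
  rw [Measure.restrict_apply_univ]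
  exact (shell_fin r).lt_top

lemma shell_inv (r : ℝ) (Q : unitary (E →L[ℝ] E)) (H : E → ℝ) :
    ∫ x, H (act Q x) ∂(nu E r) = ∫ x, H x ∂(nu E r) := by
  unfold nu
  have h1 := (Unitary.linearIsometryEquiv Q⁻¹).measurePreserving
  have h2 := (Unitary.linearIsometryEquiv Q⁻¹).toHomeomorph.measurableEmbedding
  have h3 := h1.setIntegral_preimage_emb h2 H (SH E r)
  have h4 : (Unitary.linearIsometryEquiv Q⁻¹) ⁻¹' (SH E r) = SH E r := by
    ext x
    show (r < ‖Unitary.linearIsometryEquiv Q⁻¹ x‖ ∧ ‖Unitary.linearIsometryEquiv Q⁻¹ x‖ < 1) ↔ _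
    rw [LinearIsometryEquiv.norm_map]
    rfl
  rw [h4] at h3
  exact h3

/-- the zonal average -/
theorem exists_zonal {m : ℕ} (hn : Module.finrank ℝ E = m + 2) (a : E → ℝ) (ha : Continuous a) :
    ∃ g : ℝ → ℝ, Continuous g ∧ ∀ x y : E, ‖x‖ = 1 → ‖y‖ = 1 →
      g (inner ℝ x y) = ∫ Q, a (act Q x) * a (act Q y) ∂(mu E) := by
  have : Nontrivial E := Module.nontrivial_of_finrank_pos (R := ℝ) (by omega)
  obtain ⟨x0, hx0⟩ : ∃ u : E, ‖u‖ = 1 := exists_norm_eq _ zero_le_one
  obtain ⟨b, -⟩ := exists_onb1 (n := m + 1) hn x0 hx0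
  refine ⟨fun t => ∫ Q, a (act Q (b 0)) * a (act Q (t • b 0 + √(1 - t ^ 2) • b 1)) ∂(mu E),
    ?_, ?_⟩
  · obtain ⟨w, hw⟩ : ∃ w : ℝ → E, w = fun t => t • b 0 + √(1 - t ^ 2) • b 1 := ⟨_, rfl⟩
    have hwc : Continuous w := by
      rw [hw]
      fun_prop
    obtain ⟨b0, hb0⟩ : ∃ b0 : E, b0 = b 0 := ⟨_, rfl⟩
    have e1 : Continuous (fun p : ℝ × unitary (E →L[ℝ] E) => (p.2, b0)) :=
      continuous_snd.prodMk continuous_const
    have e2 : Continuous (fun p : ℝ × unitary (E →L[ℝ] E) => (p.2, w p.1)) :=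
      continuous_snd.prodMk (hwc.comp continuous_fst)
    have e3 := ha.comp (act_continuous.comp e1)
    have e4 := ha.comp (act_continuous.comp e2)
    obtain ⟨f, hf⟩ : ∃ f : ℝ → unitary (E →L[ℝ] E) → ℝ, f = fun (t : ℝ)
      (Q : unitary (E →L[ℝ] E)) => a (act Q b0) * a (act Q (w t)) := ⟨_, rfl⟩
    have e5 : Continuous (Function.uncurry f) := by
      refine (e3.mul e4).congr fun p => ?_
      rw [hf]
      simp only [Function.uncurry, Pi.mul_apply, Function.comp_apply]
    have e6 := cont_param (mu E) f e5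
    rw [hf, hw, hb0] at e6
    exact e6
  · intro x y hx hy
    obtain ⟨u, hu, hxu, hyu⟩ := decomp_circle hn x y hx hy
    obtain ⟨b', hb0, hb1⟩ := exists_onb2 hn x u hx hu hxu
    obtain ⟨g, hg⟩ := exists_UG b b'
    have h0 := hg 0
    have h1 := hg 1
    rw [hb0] at h0
    rw [hb1] at h1
    have hle := abs_real_inner_le_norm x y
    rw [hx, hy, one_mul, abs_le] at hle
    rw [Real.cos_arccos hle.1 hle.2, Real.sin_arccos] at hyu
    obtain ⟨t, ht⟩ : ∃ t : ℝ, t = inner ℝ x y := ⟨_, rfl⟩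
    rw [← ht] at hyu ⊢
    have hs := haar_shift g (fun Q => a (act Q (b 0)) * a (act Q (t • b 0 + √(1 - t ^ 2) • b 1)))
    simp only [act_mul] at hs
    unfold mu
    beta_reduce
    rw [← hs]
    have hy' : ((g : unitary (E →L[ℝ] E)) : E →L[ℝ] E)
        (t • b 0 + √(1 - t ^ 2) • b 1) = y := by
      rw [map_add, map_smul, map_smul, h0, h1, ← hyu]
    rw [hy', h0]

lemma act_int {a : E → ℝ} (ha : Continuous a) (z w : E) :
    Integrable (fun Q => a (act Q z) * a (act Q w)) (mu E) := by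
  have h1 : Continuous (fun Q : unitary (E →L[ℝ] E) => a (act Q z) * a (act Q w)) :=
    (ha.comp (act_cont z)).mul (ha.comp (act_cont w))
  exact h1.integrable_of_hasCompactSupport (HasCompactSupport.of_compactSpace _)

theorem zonal_pd {a : E → ℝ} (ha : Continuous a) {g : ℝ → ℝ}
    (hg : ∀ x y : E, ‖x‖ = 1 → ‖y‖ = 1 →
      g (inner ℝ x y) = ∫ Q, a (act Q x) * a (act Q y) ∂(mu E)) (k : ℕ) (x : Fin k → E)
    (c : Fin k → ℝ) (hx : ∀ i, ‖x i‖ = 1) : 0 ≤ ∑ i, ∑ j, c i * c j * g (inner ℝ (x i) (x j)) := by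
  have h1 : ∑ i, ∑ j, c i * c j * g (inner ℝ (x i) (x j)) =
      ∫ Q, (∑ i, c i * a (act Q (x i))) ^ 2 ∂(mu E) := by
    have h2 : ∀ Q : unitary (E →L[ℝ] E), (∑ i, c i * a (act Q (x i))) ^ 2 =
        ∑ i, ∑ j, c i * c j * (a (act Q (x i)) * a (act Q (x j))) := by
      intro Q
      rw [sq, Finset.sum_mul_sum]
      refine Finset.sum_congr rfl fun i _ => Finset.sum_congr rfl fun j _ => ?_
      ring
    simp_rw [h2]
    rw [integral_finsetSum _ fun i _ => integrable_finsetSum _ fun j _ =>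
      (act_int ha _ _).const_mul _]
    refine Finset.sum_congr rfl fun i _ => ?_
    rw [integral_finsetSum _ fun j _ => (act_int ha _ _).const_mul _]
    refine Finset.sum_congr rfl fun j _ => ?_
    rw [integral_const_mul, hg _ _ (hx i) (hx j)]
  rw [h1]
  exact integral_nonneg fun Q => sq_nonneg _

/-- the quadratic form of `v(⟨x,y⟩)` on the functions of the direction -/
noncomputable def QF (r : ℝ) (v : ℝ → ℝ) (a b : E → ℝ) : ℝ :=
  ∫ x, ∫ y, a (dir x) * b (dir y) * v (inner ℝ x y) ∂(nu E r) ∂(nu E r)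

end gen

end Pool.Agent.Q167.KS
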