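import Mathlib
import Pool.Agent.Q167.KS.Avg

/-!
# The averaging lemma (helper167, MP_b5f63d_co)
-/

set_option autoImplicit false
set_option linter.unusedSectionVars false

open MeasureTheory Filter Topology

namespace Pool.Agent.Q167.KS

open Pool.Agent.Helper28

attribute [local instance] compactSpace_UG secondCountable_UG measUG borelUG

section gen

variable {E : Type} [NormedAddCommGroup E] [InnerProductSpace ℝ E] [CompleteSpace E]
  [FiniteDimensional ℝ E] [MeasurableSpace E] [BorelSpace E]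

lemma act_meas : Measurable (fun p : unitary (E →L[ℝ] E) × E => act p.1 p.2) :=
  act_continuous.measurable

/-- the function of three variables -/
noncomputable def F3 (a : E → ℝ) (v : ℝ → ℝ) (p : (E × E) × unitary (E →L[ℝ] E)) : ℝ :=
  a (act p.2 (dir p.1.1)) * a (act p.2 (dir p.1.2)) * v (inner ℝ p.1.1 p.1.2)

lemma F3_meas {a : E → ℝ} (ha : Continuous a) {v : ℝ → ℝ} (hv : Continuous v) :
    Measurable (F3 a v) := by
  have h1 : Measurable (fun p : (E × E) × unitary (E →L[ℝ] E) => (p.2, dir p.1.1)) :=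
    measurable_snd.prodMk (dir_measurable.comp (measurable_fst.comp measurable_fst))
  have h2 : Measurable (fun p : (E × E) × unitary (E →L[ℝ] E) => (p.2, dir p.1.2)) :=
    measurable_snd.prodMk (dir_measurable.comp (measurable_snd.comp measurable_fst))
  have e1 := ha.measurable.comp (act_meas.comp h1)
  have e2 := ha.measurable.comp (act_meas.comp h2)
  have e3 : Measurable (fun p : (E × E) × unitary (E →L[ℝ] E) => (inner ℝ p.1.1 p.1.2 : ℝ)) :=
    (measurable_fst.comp measurable_fst).inner (measurable_snd.comp measurable_fst)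
  exact (e1.mul e2).mul (hv.measurable.comp e3)

lemma act_bd {a : E → ℝ} (ha : Continuous a) :
    ∃ A : ℝ, 0 ≤ A ∧ ∀ (Q : unitary (E →L[ℝ] E)) (x : E), |a (act Q (dir x))| ≤ A := by
  obtain ⟨A, hA⟩ := (isCompact_closedBall (0 : E) 1).exists_bound_of_continuousOn ha.continuousOn
  have hA' : ∀ (Q : unitary (E →L[ℝ] E)) (x : E), |a (act Q (dir x))| ≤ A := by
    intro Q x
    refine hA _ ?_
    rw [mem_closedBall_zero_iff, act_norm]
    exact dir_norm_le x
  exact ⟨A, (abs_nonneg _).trans (hA' 1 0), hA'⟩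

lemma F3_bd {a : E → ℝ} (ha : Continuous a) {v : ℝ → ℝ} {V : ℝ} (hV : ∀ τ, |v τ| ≤ V) :
    ∃ C : ℝ, ∀ p, ‖F3 a v p‖ ≤ C := by
  obtain ⟨A, hA0, hA'⟩ := act_bd ha
  have hV0 : 0 ≤ V := (abs_nonneg _).trans (hV 0)
  refine ⟨A * A * V, fun p => ?_⟩
  unfold F3
  rw [Real.norm_eq_abs, abs_mul, abs_mul]
  exact mul_le_mul (mul_le_mul (hA' _ _) (hA' _ _) (abs_nonneg _) hA0) (hV _) (abs_nonneg _)
    (by positivity)

lemma F3_int {r : ℝ} {a : E → ℝ} (ha : Continuous a) {v : ℝ → ℝ} (hv : Continuous v) {V : ℝ}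
    (hV : ∀ τ, |v τ| ≤ V) : Integrable (F3 a v) (((nu E r).prod (nu E r)).prod (mu E)) := by
  obtain ⟨C, hC⟩ := F3_bd ha hV
  exact Integrable.of_bound (F3_meas ha hv).aestronglyMeasurable C (Eventually.of_forall hC)

lemma F3_int' {r : ℝ} {a : E → ℝ} (ha : Continuous a) {v : ℝ → ℝ} (hv : Continuous v) {V : ℝ}
    (hV : ∀ τ, |v τ| ≤ V) (Q : unitary (E →L[ℝ] E)) :
    Integrable (fun p => F3 a v (p, Q)) ((nu E r).prod (nu E r)) := by
  obtain ⟨C, hC⟩ := F3_bd ha hV
  have hm : Measurable (fun p : E × E => F3 a v (p, Q)) :=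
    (F3_meas ha hv).comp (measurable_id.prodMk measurable_const)
  exact Integrable.of_bound hm.aestronglyMeasurable C (Eventually.of_forall fun p => hC _)

/-- the integral over the pairs for a fixed rotation -/
lemma F3_fix {r : ℝ} {a : E → ℝ} (ha : Continuous a) {v : ℝ → ℝ} (hv : Continuous v) {V : ℝ}
    (hV : ∀ τ, |v τ| ≤ V) (Q : unitary (E →L[ℝ] E)) :
    ∫ p, F3 a v (p, Q) ∂((nu E r).prod (nu E r)) = QF r v a a := by
  rw [integral_prod _ (F3_int' ha hv hV Q)]
  unfold QF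
  have f1 : ∀ x : E, ∫ y, F3 a v ((x, y), Q) ∂(nu E r) =
      ∫ y, a (dir (act Q x)) * a (dir y) * v (inner ℝ (act Q x) y) ∂(nu E r) := by
    intro x
    have f2 := shell_inv r Q (fun y => a (dir (act Q x)) * a (dir y) * v (inner ℝ (act Q x) y))
    rw [← f2]
    refine integral_congr_ae (Eventually.of_forall fun y => ?_)
    unfold F3
    simp only [dir_act, act_inner]
  simp_rw [f1]
  exact shell_inv r Q (fun x => ∫ y, a (dir x) * a (dir y) * v (inner ℝ x y) ∂(nu E r))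

/-- first identity -/
lemma avg_one {r : ℝ} (hr : 0 ≤ r) {a : E → ℝ} (ha : Continuous a) {v : ℝ → ℝ}
    (hv : Continuous v) {V : ℝ} (hV : ∀ τ, |v τ| ≤ V) {g : ℝ → ℝ}
    (hg : ∀ x y : E, ‖x‖ = 1 → ‖y‖ = 1 →
      g (inner ℝ x y) = ∫ Q, a (act Q x) * a (act Q y) ∂(mu E)) :
    ∫ x, ∫ y, g (inner ℝ x y / (‖x‖ * ‖y‖)) * v (inner ℝ x y) ∂(nu E r) ∂(nu E r) =
      (mu E).real Set.univ * QF r v a a := by
  have hshell : ∀ᵐ x ∂(nu E r), x ∈ SH E r := ae_restrict_mem (shell_meas _)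
  have hFi := F3_int (r := r) ha hv hV
  have e1 : ∫ x, ∫ y, g (inner ℝ x y / (‖x‖ * ‖y‖)) * v (inner ℝ x y) ∂(nu E r) ∂(nu E r) =
      ∫ x, ∫ y, (∫ Q, F3 a v ((x, y), Q) ∂(mu E)) ∂(nu E r) ∂(nu E r) := by
    refine integral_congr_ae ?_
    filter_upwards [hshell] with x hx
    refine integral_congr_ae ?_
    filter_upwards [hshell] with y hy
    unfold F3
    dsimp only
    rw [integral_mul_const, ← dir_inner, ← hg (dir x) (dir y) (dir_norm (shell_ne hr hx))
      (dir_norm (shell_ne hr hy))]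
  have e2 := integral_prod (fun p : E × E => ∫ Q, F3 a v (p, Q) ∂(mu E))
    (μ := nu E r) (ν := nu E r) hFi.integral_prod_left
  have e3 := integral_integral_swap (μ := (nu E r).prod (nu E r))
    (ν := mu E) (f := fun (p : E × E) (Q : unitary (E →L[ℝ] E)) => F3 a v (p, Q)) hFi
  rw [e1]
  refine e2.symm.trans (e3.trans ?_)
  simp_rw [F3_fix ha hv hV]
  rw [integral_const, smul_eq_mul]

/-- second identity -/
lemma avg_two {r : ℝ} (hr : 0 ≤ r) {a : E → ℝ} (ha : Continuous a) {g : ℝ → ℝ}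
    (hg : ∀ x y : E, ‖x‖ = 1 → ‖y‖ = 1 →
      g (inner ℝ x y) = ∫ Q, a (act Q x) * a (act Q y) ∂(mu E)) :
    (mu E).real Set.univ * ∫ x, a (dir x) ^ 2 ∂(nu E r) = (nu E r).real Set.univ * g 1 := by
  have hshell : ∀ᵐ x ∂(nu E r), x ∈ SH E r := ae_restrict_mem (shell_meas _)
  obtain ⟨A, hA0, hA'⟩ := act_bd ha
  obtain ⟨G, hG⟩ : ∃ G : E × unitary (E →L[ℝ] E) → ℝ, G = fun p => a (act p.2 (dir p.1)) ^ 2 :=
    ⟨_, rfl⟩
  have hGm : Measurable G := by
    have h1 : Measurable (fun p : E × unitary (E →L[ℝ] E) => (p.2, dir p.1)) :=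
      measurable_snd.prodMk (dir_measurable.comp measurable_fst)
    have e1 := (ha.measurable.comp (act_meas.comp h1)).pow_const 2
    rw [hG]
    exact e1
  have hGi : Integrable G ((nu E r).prod (mu E)) := by
    refine Integrable.of_bound hGm.aestronglyMeasurable (A ^ 2) (Eventually.of_forall fun p => ?_)
    rw [hG, Real.norm_eq_abs, abs_pow]
    exact pow_le_pow_left₀ (abs_nonneg _) (hA' _ _) 2
  have e3 := integral_integral_swap (μ := nu E r)
    (ν := mu E) (f := fun (x : E) (Q : unitary (E →L[ℝ] E)) => G (x, Q)) hGi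
  have e4 : ∀ Q : unitary (E →L[ℝ] E), ∫ x, G (x, Q) ∂(nu E r) =
      ∫ x, a (dir x) ^ 2 ∂(nu E r) := by
    intro Q
    have f2 := shell_inv r Q (fun x => a (dir x) ^ 2)
    rw [← f2, hG]
    simp only [dir_act]
  have e5 : ∫ x, ∫ Q, G (x, Q) ∂(mu E) ∂(nu E r) = ∫ _x, g 1 ∂(nu E r) := by
    refine integral_congr_ae ?_
    filter_upwards [hshell] with x hx
    have f1 := hg (dir x) (dir x) (dir_norm (shell_ne hr hx)) (dir_norm (shell_ne hr hx))
    rw [real_inner_self_eq_norm_sq, dir_norm (shell_ne hr hx), one_pow] at f1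
    rw [f1, hG]
    refine integral_congr_ae (Eventually.of_forall fun Q => ?_)
    simp only
    ring
  rw [e5] at e3
  simp_rw [e4] at e3
  rw [integral_const, integral_const, smul_eq_mul, smul_eq_mul] at e3
  exact e3.symm

/-- **The averaging lemma.** -/
theorem avg {m : ℕ} (hn : Module.finrank ℝ E = m + 2) {r D : ℝ} (hr : 0 ≤ r) {v : ℝ → ℝ}
    (hv : Continuous v) {V : ℝ} (hV : ∀ τ, |v τ| ≤ V)
    (hB : ∀ g : ℝ → ℝ, Continuous g → (∀ (k : ℕ) (x : Fin k → E) (c : Fin k → ℝ),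
      (∀ i, ‖x i‖ = 1) → 0 ≤ ∑ i, ∑ j, c i * c j * g (inner ℝ (x i) (x j))) →
      |∫ x, ∫ y, g (inner ℝ x y / (‖x‖ * ‖y‖)) * v (inner ℝ x y) ∂(nu E r) ∂(nu E r)| ≤
        D * g 1 * (nu E r).real Set.univ ^ 2)
    (a : E → ℝ) (ha : Continuous a) :
    |QF r v a a| ≤ D * (nu E r).real Set.univ * ∫ x, a (dir x) ^ 2 ∂(nu E r) := by
  obtain ⟨g, hgc, hg⟩ := exists_zonal hn a ha
  have h3 := hB g hgc (zonal_pd ha hg)
  have h1 := avg_one hr ha hv hV hg
  have h2 := avg_two (r := r) hr ha hg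
  have hM := mu_pos (E := E)
  rw [h1, abs_mul, abs_of_pos hM] at h3
  have h5 : (mu E).real Set.univ * |QF r v a a| ≤ (mu E).real Set.univ *
        (D * (nu E r).real Set.univ * ∫ x, a (dir x) ^ 2 ∂(nu E r)) := by
    refine h3.trans (le_of_eq ?_)
    calc D * g 1 * (nu E r).real Set.univ ^ 2 =
        D * (nu E r).real Set.univ * ((nu E r).real Set.univ * g 1) := by ring
      _ = D * (nu E r).real Set.univ *
        ((mu E).real Set.univ * ∫ x, a (dir x) ^ 2 ∂(nu E r)) := by rw [h2]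
      _ = _ := by ring
  exact le_of_mul_le_mul_left h5 hM

end gen

end Pool.Agent.Q167.KS
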