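import Mathlib
import Pool.Agent.Q167.KS.Avg2

/-!
# Families of densities on the sphere (helper167, MP_b5f63d_co)
-/

set_option autoImplicit false
set_option linter.unusedSectionVars false

open MeasureTheory Filter Topology

namespace Pool.Agent.Q167.KS

section gen

variable {E : Type} [NormedAddCommGroup E] [InnerProductSpace ℝ E] [CompleteSpace E]
  [FiniteDimensional ℝ E] [MeasurableSpace E] [BorelSpace E]

/-- a partition of unity with small supports -/
theorem exists_part {δ : ℝ} (hδ : 0 < δ) : ∃ (T : Finset E) (ψ : E → E → ℝ),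
    (∀ c ∈ T, ‖c‖ = 1) ∧ (∀ c, Continuous (ψ c)) ∧ (∀ c x, 0 ≤ ψ c x) ∧
    (∀ x, ‖x‖ = 1 → ∑ c ∈ T, ψ c x = 1) ∧ (∀ c x, ψ c x ≠ 0 → dist x c < δ) := by
  obtain ⟨t, ht1, ht, hcov⟩ := (isCompact_sphere (0 : E) 1).finite_cover_balls
    (show 0 < δ / 2 by positivity)
  obtain ⟨β, hβ⟩ : ∃ β : E → E → ℝ, β = fun c x => max 0 (δ - dist x c) := ⟨_, rfl⟩
  obtain ⟨S, hS⟩ : ∃ S : E → ℝ, S = fun x => max (δ / 2) (∑ c ∈ ht.toFinset, β c x) := ⟨_, rfl⟩
  have hβ0 : ∀ c x, 0 ≤ β c x := fun c x => by rw [hβ]; exact le_max_left _ _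
  have hβc : ∀ c, Continuous (β c) := fun c => by rw [hβ]; fun_prop
  have hS0 : ∀ x, 0 < S x := fun x => by
    rw [hS]
    exact lt_of_lt_of_le (by positivity) (le_max_left _ _)
  have hSc : Continuous S := by
    rw [hS]
    exact continuous_const.max (continuous_finsetSum _ fun c _ => hβc c)
  refine ⟨ht.toFinset, fun c x => β c x / S x, ?_, ?_, ?_, ?_, ?_⟩
  · intro c hc
    have := ht1 (ht.mem_toFinset.1 hc)
    rwa [mem_sphere_zero_iff_norm] at this
  · intro c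
    exact (hβc c).div hSc fun x => (hS0 x).ne'
  · intro c x
    exact div_nonneg (hβ0 c x) (hS0 x).le
  · intro x hx
    rw [← Finset.sum_div]
    have h1 : δ / 2 ≤ ∑ c ∈ ht.toFinset, β c x := by
      obtain ⟨c, hc, hxc⟩ := Set.mem_iUnion₂.1 (hcov (mem_sphere_zero_iff_norm.2 hx))
      have h2 : δ / 2 ≤ β c x := by
        rw [hβ]
        have := Metric.mem_ball.1 hxc
        exact le_trans (by linarith) (le_max_right _ _)
      exact h2.trans (Finset.single_le_sum (fun c _ => hβ0 c x) (ht.mem_toFinset.2 hc))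
    have h2 : S x = ∑ c ∈ ht.toFinset, β c x := by
      rw [hS]
      exact max_eq_right h1
    rw [h2]
    exact div_self (by linarith)
  · intro c x h
    by_contra hd
    rw [not_lt] at hd
    apply h
    have : β c x = 0 := by
      rw [hβ]
      exact max_eq_left (by linarith)
    show β c x / S x = 0
    rw [this, zero_div]

/-- integrability of bounded functions of the direction -/
lemma dir_int {r : ℝ} {a : E → ℝ} (ha : Continuous a) :
    Integrable (fun x => a (dir x)) (nu E r) := by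
  obtain ⟨A, hA⟩ := (isCompact_closedBall (0 : E) 1).exists_bound_of_continuousOn ha.continuousOn
  refine Integrable.of_bound (ha.measurable.comp dir_measurable).aestronglyMeasurable A
    (Eventually.of_forall fun x => hA _ ?_)
  rw [mem_closedBall_zero_iff]
  exact dir_norm_le x

lemma ae_shell (r : ℝ) : ∀ᵐ x ∂(nu E r), x ∈ SH E r := ae_restrict_mem (shell_meas _)

/-- a family of densities -/
structure Dens (E : Type) [NormedAddCommGroup E] [InnerProductSpace ℝ E]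
    [FiniteDimensional ℝ E] [MeasurableSpace E] [BorelSpace E] (r δ : ℝ) (N : ℕ) (I : Type)
    [Fintype I] (c : I → E) (h : I → E → ℝ) : Prop where
  unit : ∀ i, ‖c i‖ = 1
  cont : ∀ i, Continuous (h i)
  nn : ∀ i x, 0 ≤ h i x
  supp : ∀ i x, h i x ≠ 0 → dist x (c i) < δ
  mass : ∀ i, ∫ x, h i (dir x) ∂(nu E r) = (nu E r).real Set.univ
  sum : ∀ x, ‖x‖ = 1 → ∑ i, h i x ≤ 2 * N
  lo : N ≤ Fintype.card I
  hi : Fintype.card I ≤ 2 * N

theorem exists_dens {r δ : ℝ} (hr : 0 ≤ r) (hδ : 0 < δ) (hM : 0 < (nu E r).real Set.univ) :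
    ∃ N₀ : ℕ, ∀ N : ℕ, N₀ ≤ N → ∃ (I : Type) (_ : Fintype I) (_ : DecidableEq I) (c : I → E)
      (h : I → E → ℝ), Dens E r δ N I c h := by
  classical
  obtain ⟨T, ψ, hT, hψc, hψ0, hψ1, hψs⟩ := exists_part (E := E) hδ
  obtain ⟨M, hMdef⟩ : ∃ M : ℝ, M = (nu E r).real Set.univ := ⟨_, rfl⟩
  rw [← hMdef] at hM
  obtain ⟨μ, hμ⟩ : ∃ μ : E → ℝ, μ = fun c => ∫ x, ψ c (dir x) ∂(nu E r) := ⟨_, rfl⟩
  have hμ0 : ∀ c, 0 ≤ μ c := fun c => by
    rw [hμ]
    exact integral_nonneg fun x => hψ0 c _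
  have hμs : ∑ c ∈ T, μ c = M := by
    rw [hμ]
    simp only
    rw [← integral_finsetSum _ fun c _ => dir_int (hψc c)]
    have h1 : ∫ x, ∑ c ∈ T, ψ c (dir x) ∂(nu E r) = ∫ _x, (1 : ℝ) ∂(nu E r) := by
      refine integral_congr_ae ?_
      filter_upwards [ae_shell r] with x hx
      exact hψ1 _ (dir_norm (shell_ne hr hx))
    rw [h1, integral_const, smul_eq_mul, mul_one, hMdef]
  obtain ⟨P, hP⟩ : ∃ P : Finset E, P = T.filter fun c => 0 < μ c := ⟨_, rfl⟩
  have hPμ : ∀ c ∈ P, 0 < μ c := fun c hc => by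
    rw [hP] at hc
    exact (Finset.mem_filter.1 hc).2
  have hPT : ∀ c ∈ P, c ∈ T := fun c hc => by
    rw [hP] at hc
    exact (Finset.mem_filter.1 hc).1
  have hPs : ∑ c ∈ P, μ c = M := by
    rw [← hμs, hP, Finset.sum_filter]
    refine Finset.sum_congr rfl fun c _ => ?_
    split_ifs with h
    · rfl
    · exact le_antisymm (hμ0 c) (not_lt.1 h)
  obtain ⟨C, hC⟩ : ∃ C : ℝ, C = ∑ c ∈ P, M / μ c := ⟨_, rfl⟩
  have hC0 : ∀ c ∈ P, M / μ c ≤ C := fun c hc => by
    rw [hC]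
    exact Finset.single_le_sum (f := fun c => M / μ c)
      (fun d hd => div_nonneg hM.le (hPμ d hd).le) hc
  obtain ⟨N₁, hN₁⟩ := exists_nat_ge C
  refine ⟨N₁ + P.card, fun N hN => ?_⟩
  obtain ⟨k, hk⟩ : ∃ k : E → ℕ, k = fun c => ⌈(N : ℝ) * μ c / M⌉₊ := ⟨_, rfl⟩
  have hk1 : ∀ c, (N : ℝ) * μ c / M ≤ k c := fun c => by
    rw [hk]
    exact Nat.le_ceil _
  have hk2 : ∀ c, (k c : ℝ) ≤ N * μ c / M + 1 := fun c => by
    rw [hk]
    exact (Nat.ceil_lt_add_one (div_nonneg (mul_nonneg (Nat.cast_nonneg _) (hμ0 c)) hM.le)).le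
  refine ⟨Σ c : P, Fin (k c), inferInstance, inferInstance, fun i => (i.1 : E),
    fun i x => M / μ i.1 * ψ i.1 x, ?_⟩
  have hcard : (Fintype.card (Σ c : P, Fin (k c)) : ℝ) = ∑ c ∈ P, (k c : ℝ) := by
    rw [Fintype.card_sigma]
    push_cast
    simp only [Fintype.card_fin]
    exact Finset.sum_coe_sort P fun c => (k c : ℝ)
  have hsum1 : ∑ c ∈ P, (N : ℝ) * μ c / M = N := by
    rw [← Finset.sum_div, ← Finset.mul_sum, hPs]
    field_simp
  refine ⟨fun i => hT _ (hPT _ i.1.2), fun i => (hψc _).const_mul _, fun i x => ?_,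
    fun i x hx => ?_, fun i => ?_, fun x hx => ?_, ?_, ?_⟩
  · exact mul_nonneg (div_nonneg hM.le (hμ0 _)) (hψ0 _ _)
  · exact hψs _ _ (right_ne_zero_of_mul hx)
  · rw [integral_const_mul, ← hMdef]
    have h1 : ∫ x, ψ (i.1 : E) (dir x) ∂(nu E r) = μ i.1 := by rw [hμ]
    rw [h1]
    exact div_mul_cancel₀ _ (hPμ _ i.1.2).ne'
  · have h1 : ∑ i : (Σ c : P, Fin (k c)), M / μ i.1 * ψ i.1 x =
        ∑ c ∈ P, (k c : ℝ) * (M / μ c * ψ c x) := by
      rw [Fintype.sum_sigma, ← Finset.sum_coe_sort P fun c => (k c : ℝ) * (M / μ c * ψ c x)]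
      refine Finset.sum_congr rfl fun c _ => ?_
      dsimp only
      rw [Finset.sum_const, Finset.card_univ, Fintype.card_fin, nsmul_eq_mul]
    rw [h1]
    have h2 : ∀ c ∈ P, (k c : ℝ) * (M / μ c * ψ c x) ≤ (N + C) * ψ c x := by
      intro c hc
      have h3 := hPμ c hc
      calc (k c : ℝ) * (M / μ c * ψ c x) ≤ (N * μ c / M + 1) * (M / μ c * ψ c x) :=
            mul_le_mul_of_nonneg_right (hk2 c) (mul_nonneg (div_nonneg hM.le h3.le) (hψ0 _ _))
        _ = (N + M / μ c) * ψ c x := by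
            field_simp
        _ ≤ _ := mul_le_mul_of_nonneg_right (by linarith [hC0 c hc]) (hψ0 _ _)
    have h3 : ∑ c ∈ P, ψ c x ≤ 1 := by
      rw [← hψ1 x hx]
      exact Finset.sum_le_sum_of_subset_of_nonneg (fun c hc => hPT c hc) fun c _ _ => hψ0 c x
    have hCN : C ≤ N := hN₁.trans (by exact_mod_cast (by omega : N₁ ≤ N))
    have hN0 : (0 : ℝ) ≤ N := Nat.cast_nonneg N
    have hCn : 0 ≤ C := by
      rw [hC]
      exact Finset.sum_nonneg fun d hd => div_nonneg hM.le (hPμ d hd).le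
    calc _ ≤ ∑ c ∈ P, ((N : ℝ) + C) * ψ c x := Finset.sum_le_sum h2
      _ = (N + C) * ∑ c ∈ P, ψ c x := by rw [Finset.mul_sum]
      _ ≤ (N + C) * 1 := mul_le_mul_of_nonneg_left h3 (by positivity)
      _ ≤ 2 * N := by linarith
  · have h1 : (N : ℝ) ≤ Fintype.card (Σ c : P, Fin (k c)) := by
      rw [hcard, ← hsum1]
      exact Finset.sum_le_sum fun c _ => hk1 c
    exact_mod_cast h1
  · have h1 : (Fintype.card (Σ c : P, Fin (k c)) : ℝ) ≤ 2 * N := by
      rw [hcard]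
      calc ∑ c ∈ P, (k c : ℝ) ≤ ∑ c ∈ P, ((N : ℝ) * μ c / M + 1) :=
            Finset.sum_le_sum fun c _ => hk2 c
        _ = N + P.card := by
            rw [Finset.sum_add_distrib, hsum1]
            simp
        _ ≤ 2 * N := by
            have : (P.card : ℝ) ≤ N := by exact_mod_cast (by omega : P.card ≤ N)
            linarith
    exact_mod_cast h1

end gen

end Pool.Agent.Q167.KS
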