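import Mathlib
import Pool.Agent.Q167.KS.Part
import Pool.Agent.Y570.KP.Ansatz

/-!
# The kernel of a dual function (helper167, MP_b5f63d_co)
-/

set_option autoImplicit false
set_option linter.unusedSectionVars false

open MeasureTheory Filter Topology

namespace Pool.Agent.Q167.KS

section gen

variable {E : Type} [NormedAddCommGroup E] [InnerProductSpace ℝ E] [CompleteSpace E]
  [FiniteDimensional ℝ E] [MeasurableSpace E] [BorelSpace E]

/-- bounded dual functions on the whole line -/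
structure DualF (s₁ r θ : ℝ) (v : ℝ → ℝ) : Prop where
  cont : Continuous v
  one : ∀ τ, s₁ * r ^ 2 ≤ τ → v τ = 1
  le : ∀ τ, v τ ≤ 1
  ge : ∀ τ, -θ ≤ v τ

/-- the integrand -/
noncomputable def F2 (v : ℝ → ℝ) (a b : E → ℝ) (p : E × E) : ℝ :=
  a (dir p.1) * b (dir p.2) * v (inner ℝ p.1 p.2)

lemma F2_meas {v : ℝ → ℝ} (hv : Continuous v) {a b : E → ℝ} (ha : Continuous a)
    (hb : Continuous b) : Measurable (F2 v a b) := by
  have e3 : Measurable (fun p : E × E => (inner ℝ p.1 p.2 : ℝ)) :=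
    measurable_fst.inner measurable_snd
  exact ((ha.measurable.comp (dir_measurable.comp measurable_fst)).mul
    (hb.measurable.comp (dir_measurable.comp measurable_snd))).mul (hv.measurable.comp e3)

lemma dir_bd {a : E → ℝ} (ha : Continuous a) : ∃ A : ℝ, 0 ≤ A ∧ ∀ x : E, |a (dir x)| ≤ A := by
  obtain ⟨A, hA⟩ := (isCompact_closedBall (0 : E) 1).exists_bound_of_continuousOn ha.continuousOn
  have h : ∀ x : E, |a (dir x)| ≤ A := fun x => hA _ (by
    rw [mem_closedBall_zero_iff]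
    exact dir_norm_le x)
  exact ⟨A, (abs_nonneg _).trans (h 0), h⟩

variable {r s₁ θ : ℝ} {v : ℝ → ℝ}

lemma DualF.bd (h : DualF s₁ r θ v) (τ : ℝ) : |v τ| ≤ max 1 θ := by
  rw [abs_le]
  constructor
  · have h1 := h.ge τ
    have h2 := le_max_right 1 θ
    linarith
  · exact (h.le τ).trans (le_max_left _ _)

lemma F2_int (h : DualF s₁ r θ v) {a b : E → ℝ} (ha : Continuous a) (hb : Continuous b) :
    Integrable (F2 v a b) ((nu E r).prod (nu E r)) := by
  obtain ⟨A, hA0, hA⟩ := dir_bd ha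
  obtain ⟨B, hB0, hB⟩ := dir_bd hb
  refine Integrable.of_bound (F2_meas h.cont ha hb).aestronglyMeasurable (A * B * max 1 θ)
    (Eventually.of_forall fun p => ?_)
  unfold F2
  rw [Real.norm_eq_abs, abs_mul, abs_mul]
  exact mul_le_mul (mul_le_mul (hA _) (hB _) (abs_nonneg _) hA0) (h.bd _) (abs_nonneg _)
    (by positivity)

lemma QF_eq (h : DualF s₁ r θ v) {a b : E → ℝ} (ha : Continuous a) (hb : Continuous b) :
    QF r v a b = ∫ p, F2 v a b p ∂((nu E r).prod (nu E r)) := by
  rw [integral_prod _ (F2_int h ha hb)]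
  rfl

lemma QF_symm (h : DualF s₁ r θ v) {a b : E → ℝ} (ha : Continuous a) (hb : Continuous b) :
    QF r v a b = QF r v b a := by
  have h1 := integral_integral_swap (μ := nu E r) (ν := nu E r)
    (f := fun x y => F2 v a b (x, y)) (F2_int h ha hb)
  have h2 : QF r v a b = ∫ x, ∫ y, F2 v a b (x, y) ∂(nu E r) ∂(nu E r) := rfl
  have h3 : QF r v b a = ∫ y, ∫ x, F2 v a b (x, y) ∂(nu E r) ∂(nu E r) := by
    unfold QF F2
    refine integral_congr_ae (Eventually.of_forall fun y => ?_)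
    refine integral_congr_ae (Eventually.of_forall fun x => ?_)
    simp only [real_inner_comm]
    ring
  rw [h2, h3]
  exact h1

lemma QF_sum (h : DualF s₁ r θ v) {I : Type} [Fintype I] {f : I → E → ℝ}
    (hf : ∀ i, Continuous (f i)) (a : I → ℝ) :
    QF r v (fun x => ∑ i, a i * f i x) (fun x => ∑ i, a i * f i x) =
      ∑ i, ∑ j, a i * a j * QF r v (f i) (f j) := by
  have hc : Continuous fun x => ∑ i, a i * f i x :=
    continuous_finsetSum _ fun i _ => (hf i).const_mul _
  rw [QF_eq h hc hc]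
  have h1 : ∀ p : E × E, F2 v (fun x => ∑ i, a i * f i x) (fun x => ∑ i, a i * f i x) p =
      ∑ i, ∑ j, a i * a j * F2 v (f i) (f j) p := by
    intro p
    unfold F2
    rw [Finset.sum_mul_sum, Finset.sum_mul]
    refine Finset.sum_congr rfl fun i _ => ?_
    rw [Finset.sum_mul]
    refine Finset.sum_congr rfl fun j _ => ?_
    ring
  simp_rw [h1]
  rw [integral_finsetSum _ fun i _ => integrable_finsetSum _ fun j _ =>
    (F2_int h (hf i) (hf j)).const_mul _]
  refine Finset.sum_congr rfl fun i _ => ?_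
  rw [integral_finsetSum _ fun j _ => (F2_int h (hf i) (hf j)).const_mul _]
  refine Finset.sum_congr rfl fun j _ => ?_
  rw [integral_const_mul, QF_eq h (hf i) (hf j)]

/-- the double integral of a product -/
lemma prod_int (a b : E → ℝ) :
    ∫ x, ∫ y, a (dir x) * b (dir y) ∂(nu E r) ∂(nu E r) =
      (∫ x, a (dir x) ∂(nu E r)) * ∫ x, b (dir x) ∂(nu E r) := by
  simp_rw [integral_const_mul]
  rw [integral_mul_const]

lemma QF_le (h : DualF s₁ r θ v) {a b : E → ℝ} (ha : Continuous a) (hb : Continuous b)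
    (ha0 : ∀ x, 0 ≤ a x) (hb0 : ∀ x, 0 ≤ b x) :
    QF r v a b ≤ (∫ x, a (dir x) ∂(nu E r)) * ∫ x, b (dir x) ∂(nu E r) := by
  have h1 : DualF s₁ r 1 (fun _ => (1 : ℝ)) :=
    ⟨continuous_const, fun _ _ => rfl, fun _ => le_rfl, fun _ => by norm_num⟩
  have h2 := QF_eq h1 ha hb
  have h3 : QF r (fun _ => (1 : ℝ)) a b =
      (∫ x, a (dir x) ∂(nu E r)) * ∫ x, b (dir x) ∂(nu E r) := by
    rw [← prod_int]
    unfold QF
    simp only [mul_one]
  rw [← h3, h2, QF_eq h ha hb]
  refine integral_mono (F2_int h ha hb) (F2_int h1 ha hb) fun p => ?_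
  unfold F2
  exact mul_le_mul_of_nonneg_left (h.le _) (mul_nonneg (ha0 _) (hb0 _))

lemma QF_ge (h : DualF s₁ r θ v) {a b : E → ℝ} (ha : Continuous a) (hb : Continuous b)
    (ha0 : ∀ x, 0 ≤ a x) (hb0 : ∀ x, 0 ≤ b x) :
    -θ * ((∫ x, a (dir x) ∂(nu E r)) * ∫ x, b (dir x) ∂(nu E r)) ≤ QF r v a b := by
  have h1 : DualF s₁ r 1 (fun _ => (1 : ℝ)) :=
    ⟨continuous_const, fun _ _ => rfl, fun _ => le_rfl, fun _ => by norm_num⟩
  have h2 := QF_eq h1 ha hb
  have h3 : QF r (fun _ => (1 : ℝ)) a b =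
      (∫ x, a (dir x) ∂(nu E r)) * ∫ x, b (dir x) ∂(nu E r) := by
    rw [← prod_int]
    unfold QF
    simp only [mul_one]
  rw [← h3, h2, QF_eq h ha hb, ← integral_const_mul]
  refine integral_mono ((F2_int h1 ha hb).const_mul _) (F2_int h ha hb) fun p => ?_
  unfold F2
  have := mul_le_mul_of_nonneg_left (h.ge (inner ℝ p.1 p.2)) (mul_nonneg (ha0 (dir p.1)) (hb0 (dir p.2)))
  simp only
  linarith

lemma QF_one (h : DualF s₁ r θ v) (hr : 0 ≤ r) (hs : 0 ≤ s₁) {a b : E → ℝ}
    {c d : E} {δ : ℝ}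
    (ha : ∀ x, a x ≠ 0 → dist x c < δ) (hb : ∀ x, b x ≠ 0 → dist x d < δ) (hc : ‖c‖ = 1)
    (hd : ‖d‖ = 1) (hcd : s₁ + 2 * δ ≤ inner ℝ c d) :
    QF r v a b = (∫ x, a (dir x) ∂(nu E r)) * ∫ x, b (dir x) ∂(nu E r) := by
  rw [← prod_int]
  unfold QF
  refine integral_congr_ae ?_
  filter_upwards [ae_shell r] with x hx
  refine integral_congr_ae ?_
  filter_upwards [ae_shell r] with y hy
  by_cases h1 : a (dir x) = 0
  · simp only [h1, zero_mul]
  by_cases h2 : b (dir y) = 0
  · simp only [h2, mul_zero, zero_mul]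
  have h3 := ha _ h1
  have h4 := hb _ h2
  have hx1 := dir_norm (shell_ne hr hx)
  have hy1 := dir_norm (shell_ne hr hy)
  have h5 : s₁ ≤ inner ℝ (dir x) (dir y) := by
    have e1 : inner ℝ (dir x) (dir y) = inner ℝ c d + inner ℝ (dir x - c) d +
        inner ℝ (dir x) (dir y - d) := by
      rw [inner_sub_left, inner_sub_right]
      ring
    have e2 : |inner ℝ (dir x - c) d| ≤ δ := by
      refine (abs_real_inner_le_norm _ _).trans ?_
      rw [hd, mul_one, ← dist_eq_norm]
      exact h3.le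
    have e3 : |inner ℝ (dir x) (dir y - d)| ≤ δ := by
      refine (abs_real_inner_le_norm _ _).trans ?_
      rw [hx1, one_mul, ← dist_eq_norm]
      exact h4.le
    rw [e1]
    have := (abs_le.1 e2).1
    have := (abs_le.1 e3).1
    linarith
  have h6 : s₁ * r ^ 2 ≤ inner ℝ x y := by
    have e1 := dir_inner x y
    have hx0 : 0 < ‖x‖ := norm_pos_iff.2 (shell_ne hr hx)
    have hy0 : 0 < ‖y‖ := norm_pos_iff.2 (shell_ne hr hy)
    rw [eq_div_iff (by positivity)] at e1
    rw [← e1]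
    have hxr : r ≤ ‖x‖ := hx.1.le
    have hyr : r ≤ ‖y‖ := hy.1.le
    calc s₁ * r ^ 2 ≤ inner ℝ (dir x) (dir y) * r ^ 2 :=
          mul_le_mul_of_nonneg_right h5 (by positivity)
      _ ≤ inner ℝ (dir x) (dir y) * (‖x‖ * ‖y‖) := by
          refine mul_le_mul_of_nonneg_left ?_ (hs.trans h5)
          rw [sq]
          exact mul_le_mul hxr hyr hr hx0.le
  simp only [h.one _ h6, mul_one]

open Pool.Agent.Y570.KP

/-- **The kernel.** -/
theorem good_kernel (h : DualF s₁ r θ v) (hr : 0 ≤ r) (hs : 0 ≤ s₁) {D δ : ℝ} {N : ℕ}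
    (hδ : s₁ + 2 * δ ≤ 1) (hD : 0 ≤ D)
    (hQ : ∀ a : E → ℝ, Continuous a → |QF r v a a| ≤
      D * (nu E r).real Set.univ * ∫ x, a (dir x) ^ 2 ∂(nu E r))
    (hM : 0 < (nu E r).real Set.univ) {I : Type} [Fintype I] [DecidableEq I] {c : I → E}
    {f : I → E → ℝ} (hf : Dens E r δ N I c f) :
    ∃ G : I → I → ℝ, Good G (1 + θ) (2 * D * N) ∧
      ∀ i j, s₁ + 2 * δ ≤ inner ℝ (c i) (c j) → G i j = 0 := by
  obtain ⟨M, hMdef⟩ : ∃ M : ℝ, M = (nu E r).real Set.univ := ⟨_, rfl⟩
  rw [← hMdef] at hM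
  have hmass : ∀ i, ∫ x, f i (dir x) ∂(nu E r) = M := fun i => by rw [hf.mass, hMdef]
  have hM2 : (0 : ℝ) < M ^ 2 := by positivity
  have hone : ∀ i j, s₁ + 2 * δ ≤ inner ℝ (c i) (c j) → QF r v (f i) (f j) = M ^ 2 := by
    intro i j hij
    rw [QF_one h hr hs (hf.supp i) (hf.supp j) (hf.unit i) (hf.unit j) hij, hmass, hmass, sq]
  refine ⟨fun i j => 1 - QF r v (f i) (f j) / M ^ 2, ⟨?_, ?_, ?_, ?_, ?_⟩, ?_⟩
  · intro i j
    rw [QF_symm h (hf.cont i) (hf.cont j)]
  · intro i
    rw [hone i i (by rw [real_inner_self_eq_norm_sq, hf.unit, one_pow]; exact hδ), div_self hM2.ne',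
      sub_self]
  · intro i j
    have h1 := QF_le h (hf.cont i) (hf.cont j) (hf.nn i) (hf.nn j)
    rw [hmass, hmass, ← sq] at h1
    rw [sub_nonneg, div_le_one hM2]
    exact h1
  · intro i j
    have h1 := QF_ge h (hf.cont i) (hf.cont j) (hf.nn i) (hf.nn j)
    rw [hmass, hmass, ← sq] at h1
    have h2 : -θ ≤ QF r v (f i) (f j) / M ^ 2 := by
      rw [le_div_iff₀ hM2]
      exact h1
    linarith
  · intro a
    have h1 : ∀ i j, (1 - QF r v (f i) (f j) / M ^ 2 - 1) * a i * a j =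
        -(1 / M ^ 2) * (a i * a j * QF r v (f i) (f j)) := by
      intro i j
      ring
    simp_rw [h1, ← Finset.mul_sum]
    rw [← QF_sum h hf.cont a, abs_mul, abs_neg, abs_of_pos (by positivity : 0 < 1 / M ^ 2)]
    have hc : Continuous fun x => ∑ i, a i * f i x :=
      continuous_finsetSum _ fun i _ => (hf.cont i).const_mul _
    have h2 := hQ _ hc
    have h3 : ∫ x, (∑ i, a i * f i (dir x)) ^ 2 ∂(nu E r) ≤ 2 * N * (M * ∑ i, a i ^ 2) := by
      have e1 : ∫ x, (∑ i, a i * f i (dir x)) ^ 2 ∂(nu E r) ≤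
          ∫ x, 2 * N * ∑ i, a i ^ 2 * f i (dir x) ∂(nu E r) := by
        refine integral_mono_ae ?_ ?_ ?_
        · exact dir_int (a := fun x => (∑ i, a i * f i x) ^ 2) (hc.pow 2)
        · exact dir_int (a := fun x => 2 * N * ∑ i, a i ^ 2 * f i x)
            ((continuous_finsetSum _ fun i _ => (hf.cont i).const_mul _).const_mul _)
        · filter_upwards [ae_shell r] with x hx
          have k1 := dir_norm (shell_ne hr hx)
          have k2 := Finset.sum_mul_sq_le_sq_mul_sq Finset.univ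
            (fun i => a i * √(f i (dir x))) (fun i => √(f i (dir x)))
          have k3 : ∑ i, a i * √(f i (dir x)) * √(f i (dir x)) = ∑ i, a i * f i (dir x) := by
            refine Finset.sum_congr rfl fun i _ => ?_
            rw [mul_assoc, Real.mul_self_sqrt (hf.nn i _)]
          have k4 : ∑ i, (a i * √(f i (dir x))) ^ 2 = ∑ i, a i ^ 2 * f i (dir x) := by
            refine Finset.sum_congr rfl fun i _ => ?_
            rw [mul_pow, Real.sq_sqrt (hf.nn i _)]
          have k5 : ∑ i, √(f i (dir x)) ^ 2 = ∑ i, f i (dir x) := by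
            refine Finset.sum_congr rfl fun i _ => ?_
            rw [Real.sq_sqrt (hf.nn i _)]
          rw [k3, k4, k5] at k2
          refine k2.trans ?_
          rw [mul_comm]
          exact mul_le_mul_of_nonneg_right (hf.sum _ k1)
            (Finset.sum_nonneg fun i _ => mul_nonneg (sq_nonneg _) (hf.nn i _))
      refine e1.trans (le_of_eq ?_)
      rw [integral_const_mul, integral_finsetSum _ fun i _ => (dir_int (hf.cont i)).const_mul _]
      congr 1
      rw [Finset.mul_sum]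
      refine Finset.sum_congr rfl fun i _ => ?_
      rw [integral_const_mul, hmass]
      ring
    rw [← hMdef] at h2
    calc 1 / M ^ 2 * |QF r v (fun x => ∑ i, a i * f i x) (fun x => ∑ i, a i * f i x)|
        ≤ 1 / M ^ 2 * (D * M * (2 * N * (M * ∑ i, a i ^ 2))) := by
          refine mul_le_mul_of_nonneg_left (h2.trans ?_) (by positivity)
          exact mul_le_mul_of_nonneg_left h3 (by positivity)
      _ = 2 * D * N * ∑ i, a i ^ 2 := by
          field_simp
  · intro i j hij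
    simp only
    rw [hone i j hij, div_self hM2.ne', sub_self]

end gen

end Pool.Agent.Q167.KS
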