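import Mathlib
import Pool.Agent.Q167.KS.Kern
import Pool.Agent.Y570.SP.Sph

/-!
# Pseudo-codes from dual functions (helper167, MP_b5f63d_co)
-/

set_option autoImplicit false
set_option linter.unusedSectionVars false

open MeasureTheory Filter Topology

namespace Pool.Agent.Q167.KS

open Pool.Agent.Y570.KP Pool.Agent.Y570.SP
open Pool.Agent.Y509.KP (Small2 nonneg_all' psd_all')

lemma yys {X : Type} [Fintype X] [DecidableEq X] {G : X → X → ℝ} {ρ : ℝ} (x : X) :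
    yy ρ G {x} = ρ := by
  unfold yy pr
  simp

lemma yyz {X : Type} [Fintype X] [DecidableEq X] {G : X → X → ℝ} {ρ : ℝ} {S : Finset X}
    {u v : X} (hu : u ∈ S) (hv : v ∈ S) (huv : u ≠ v) (h : G u v = 0) : yy ρ G S = 0 := by
  unfold yy pr
  have h1 : (u, v) ∈ S.offDiag := by
    rw [Finset.mem_offDiag]
    exact ⟨hu, hv, huv⟩
  rw [Finset.prod_eq_zero h1, mul_zero]
  simp [h]

/-- the pseudo-code on the index set -/
theorem kc_of {k : ℕ} {s₂ θ D : ℝ} {N : ℕ} {I E : Type} [Fintype I] [DecidableEq I]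
    [NormedAddCommGroup E] [InnerProductSpace ℝ E] {c : I → E} {G : I → I → ℝ}
    (hG : Good G (1 + θ) (2 * D * N)) (hz : ∀ i j, s₂ ≤ inner ℝ (c i) (c j) → G i j = 0)
    (hθ : 0 ≤ θ) (hD : 0 < D) (hk : (1 + θ) ^ k ≤ 2.72) (hN0 : 0 < N)
    (hlo : N ≤ Fintype.card I) (hhi : Fintype.card I ≤ 2 * N)
    (hN : 2 ^ k * (9 + 7 / D) / (2 * D) ≤ N) :
    ∃ y : Finset I → ℝ, KC k (fun i j => s₂ ≤ inner ℝ (c i) (c j)) y ∧
      1 / (12 * D) ≤ ∑ i, y {i} := by
  have hNR : (0 : ℝ) < N := by exact_mod_cast hN0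
  obtain ⟨ρ, hρ⟩ : ∃ ρ : ℝ, ρ = 1 / (12 * D * N) := ⟨_, rfl⟩
  have hρ0 : 0 < ρ := by rw [hρ]; positivity
  obtain ⟨K, hK⟩ : ∃ K : ℝ, K = 1 + θ := ⟨_, rfl⟩
  obtain ⟨L, hL⟩ : ∃ L : ℝ, L = 2 * D * N := ⟨_, rfl⟩
  have hL0 : 0 < L := by rw [hL]; positivity
  rw [← hK, ← hL] at hG
  rw [← hK] at hk
  have hK1 : 1 ≤ K := by rw [hK]; linarith
  have hKk0 : 0 < K ^ k := by positivity
  have hLρ : L * ρ = 1 / 6 := by
    rw [hL, hρ]
    field_simp
    norm_num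
  have hK2k : K ^ (2 * k) ≤ 7.4 := by
    have : K ^ (2 * k) = (K ^ k) ^ 2 := by rw [← pow_mul, mul_comm]
    rw [this]
    nlinarith
  have hK3k : K ^ (3 * k) ≤ 21 := by
    have : K ^ (3 * k) = (K ^ k) ^ 3 := by rw [← pow_mul, mul_comm]
    rw [this]
    calc (K ^ k) ^ 3 ≤ 2.72 ^ 3 := pow_le_pow_left₀ hKk0.le hk 3
      _ ≤ 21 := by norm_num
  have hρI : ρ * (Fintype.card I : ℝ) ≤ 1 / (6 * D) := by
    have h1 : (Fintype.card I : ℝ) ≤ 2 * N := by exact_mod_cast hhi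
    calc ρ * (Fintype.card I : ℝ) ≤ ρ * (2 * N) := mul_le_mul_of_nonneg_left h1 hρ0.le
      _ = 1 / (6 * D) := by
        rw [hρ]
        field_simp
        norm_num
  have hS : Small2 K L ρ (Fintype.card I) k := by
    refine ⟨hK1, hL0, hρ0, ?_, ?_⟩
    · calc L * (ρ * K ^ k) = 1 / 6 * K ^ k := by rw [← mul_assoc, hLρ]
        _ ≤ 1 / 6 * 2.72 := by gcongr
        _ ≤ 1 / 2 := by norm_num
    · have h4 : 2 * (ρ * (Fintype.card I : ℝ) * K ^ (3 * k)) ≤ 7 / D := by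
        have h5 : ρ * (Fintype.card I : ℝ) * K ^ (3 * k) ≤ 1 / (6 * D) * 21 :=
          mul_le_mul hρI hK3k (by positivity) (by positivity)
        calc _ ≤ 2 * (1 / (6 * D) * 21) := by linarith
          _ = 7 / D := by
            field_simp
            norm_num
      have h5 : L * (ρ * K ^ (2 * k)) * K ^ k ≤ 3.4 := by
        have h6 : L * (ρ * K ^ (2 * k)) * K ^ k = 1 / 6 * (K ^ (2 * k) * K ^ k) := by
          rw [← mul_assoc, hLρ]
          ring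
        rw [h6]
        have h7 : K ^ (2 * k) * K ^ k ≤ 7.4 * 2.72 :=
          mul_le_mul hK2k hk (by positivity) (by norm_num)
        linarith
      have h6 : 2 + (2 * (ρ * (Fintype.card I : ℝ) * K ^ (3 * k)) + K ^ k +
          L * (ρ * K ^ (2 * k)) * K ^ k) ≤ 9 + 7 / D := by linarith
      have h7 : ρ * K ^ k ≤ ρ * 2.72 := mul_le_mul_of_nonneg_left hk hρ0.le
      have h8 : (0 : ℝ) < 9 + 7 / D := by positivity
      calc 2 ^ k * (ρ * K ^ k) * (2 + (2 * (ρ * (Fintype.card I : ℝ) * K ^ (3 * k)) + K ^ k +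
            L * (ρ * K ^ (2 * k)) * K ^ k))
          ≤ 2 ^ k * (ρ * 2.72) * (9 + 7 / D) := by
            refine mul_le_mul (mul_le_mul_of_nonneg_left h7 (by positivity)) h6 ?_ (by positivity)
            positivity
        _ = (2 ^ k * (9 + 7 / D) / (2 * D)) * (2.72 / (6 * N)) := by
            rw [hρ]
            field_simp
            norm_num
        _ ≤ N * (2.72 / (6 * N)) := mul_le_mul_of_nonneg_right hN (by positivity)
        _ = 2.72 / 6 := by field_simp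
        _ ≤ 1 / 2 := by norm_num
  refine ⟨yy ρ G, ⟨yy_empty, ?_, ?_, ?_⟩, ?_⟩
  · intro S u hu w hw huw hR
    exact yyz hu hw huw (hz u w hR)
  · intro D' F' h
    exact nonneg_all' hG hS D' F' h
  · intro D' F' h a
    exact psd_all' hG hS D' F' (by omega) a
  · rw [Finset.sum_congr rfl fun x _ => yys x, Finset.sum_const, Finset.card_univ, nsmul_eq_mul,
      hρ]
    have h1 : (N : ℝ) ≤ Fintype.card I := by exact_mod_cast hlo
    calc 1 / (12 * D) = N * (1 / (12 * D * N)) := by field_simp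
      _ ≤ _ := mul_le_mul_of_nonneg_right h1 (by positivity)

/-- **Pseudo-codes from dual functions.** -/
theorem bar {n : ℕ} (hn : 2 ≤ n) {k : ℕ} {r s s₁ θ D δ : ℝ} {v : ℝ → ℝ} (h : DualF s₁ r θ v)
    (hr : 0 ≤ r) (hs : 0 ≤ s₁) (hδ0 : 0 < δ) (hδ : s₁ + 4 * δ ≤ s) (hs1 : s ≤ 1) (hD : 0 < D)
    (hθ : 0 ≤ θ) (hk : (1 + θ) ^ k ≤ 2.72)
    (hQ : ∀ a : E n → ℝ, Continuous a → |QF r v a a| ≤
      D * (nu (E n) r).real Set.univ * ∫ x, a (dir x) ^ 2 ∂(nu (E n) r))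
    (hM : 0 < (nu (E n) r).real Set.univ) :
    ∃ X : Finset (E n), (∀ x ∈ X, ‖x‖ = 1) ∧ ∃ y : Finset X → ℝ, SCode n k s X y ∧
      1 / (12 * D) ≤ ∑ x, y {x} := by
  classical
  obtain ⟨N₀, hN₀⟩ := exists_dens (E := E n) hr hδ0 hM
  obtain ⟨N₁, hN₁⟩ := exists_nat_ge (2 ^ k * (9 + 7 / D) / (2 * D))
  obtain ⟨I, _, _, c, f, hf⟩ := hN₀ (N₀ + N₁ + 1) (by omega)
  obtain ⟨N, hN⟩ : ∃ N : ℕ, N = N₀ + N₁ + 1 := ⟨_, rfl⟩
  rw [← hN] at hf
  have hNN : (2 : ℝ) ^ k * (9 + 7 / D) / (2 * D) ≤ N :=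
    hN₁.trans (by exact_mod_cast (by omega : N₁ ≤ N))
  obtain ⟨G, hG, hGz⟩ := good_kernel h hr hs (by linarith) hD.le hQ hM hf
  obtain ⟨y, hy, hsum⟩ := kc_of hG hGz hθ hD hk (by omega) hf.lo hf.hi hNN
  -- the points
  have : Nonempty (Fin n) := ⟨⟨0, by omega⟩⟩
  have hinf : Infinite (E n) := by
    have : Nontrivial (E n) := inferInstance
    exact Module.Free.infinite ℝ (E n)
  obtain ⟨ι⟩ : Nonempty (I ↪ E n) :=
    ⟨(Fintype.equivFin I).toEmbedding.trans (Fin.valEmbedding.trans (Infinite.natEmbedding (E n)))⟩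
  obtain ⟨ψ, h1, h2⟩ := exists_dirs hn (Finset.univ.map ι) (Function.extend ι c fun _ => 0)
    (fun x hx => by
      obtain ⟨i, -, rfl⟩ := Finset.mem_map.1 hx
      rw [ι.injective.extend_apply]
      exact hf.unit i) hδ0
  have hmem : ∀ i, ι i ∈ Finset.univ.map ι := fun i =>
    Finset.mem_map.2 ⟨i, Finset.mem_univ _, rfl⟩
  obtain ⟨ξ, hξ⟩ : ∃ ξ : I → E n, ξ = fun i => ψ (ι i) := ⟨_, rfl⟩
  have hξinj : Function.Injective ξ := by
    intro i j hij
    rw [hξ] at hij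
    exact ι.injective (h1 (hmem i) (hmem j) hij)
  have hξ1 : ∀ i, ‖ξ i‖ = 1 := fun i => by
    rw [hξ]
    exact (h2 _ (hmem i)).1
  have hξc : ∀ i, dist (ξ i) (c i) < δ := fun i => by
    have := (h2 _ (hmem i)).2
    rw [ι.injective.extend_apply] at this
    rw [hξ]
    exact this
  obtain ⟨X, hX⟩ : ∃ X : Finset (E n), X = Finset.univ.image ξ := ⟨_, rfl⟩
  have hmX : ∀ i, ξ i ∈ X := fun i => by
    rw [hX]
    exact Finset.mem_image_of_mem ξ (Finset.mem_univ i)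
  obtain ⟨e', he'⟩ : ∃ e' : I ≃ X, ∀ x, (e' x : E n) = ξ x := by
    refine ⟨Equiv.ofBijective (fun x : I => (⟨ξ x, hmX x⟩ : X)) ⟨?_, ?_⟩, fun x => rfl⟩
    · intro x z hxz
      exact hξinj (Subtype.mk.inj hxz)
    · rintro ⟨w, hw⟩
      rw [hX, Finset.mem_image] at hw
      obtain ⟨x, hx, rfl⟩ := hw
      exact ⟨x, rfl⟩
  have h4 : KC k (fun u v : X => s < inner ℝ (u : E n) v)
      (fun S => y (S.map e'.symm.toEmbedding)) := by
    refine hy.transport e'.symm fun u w huv => ?_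
    obtain ⟨i, rfl⟩ := e'.surjective u
    obtain ⟨j, rfl⟩ := e'.surjective w
    rw [e'.symm_apply_apply, e'.symm_apply_apply]
    rw [he', he'] at huv
    have e1 : inner ℝ (ξ i) (ξ j) = inner ℝ (c i) (c j) + inner ℝ (ξ i - c i) (c j) +
        inner ℝ (ξ i) (ξ j - c j) := by
      rw [inner_sub_left, inner_sub_right]
      ring
    have e2 : inner ℝ (ξ i - c i) (c j) ≤ δ := by
      refine (real_inner_le_norm _ _).trans ?_
      rw [hf.unit, mul_one, ← dist_eq_norm]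
      exact (hξc i).le
    have e3 : inner ℝ (ξ i) (ξ j - c j) ≤ δ := by
      refine (real_inner_le_norm _ _).trans ?_
      rw [hξ1, one_mul, ← dist_eq_norm]
      exact (hξc j).le
    linarith
  refine ⟨X, fun w hw => ?_, _, scode_of h4, ?_⟩
  · rw [hX, Finset.mem_image] at hw
    obtain ⟨x, -, rfl⟩ := hw
    exact hξ1 x
  · rw [sum_transport]
    exact hsum

end Pool.Agent.Q167.KS
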