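import Mathlib
import Pool.Agent.Q154.SL.Cut

/-!
# The dual function with a lower bound (helper167, after helper154)
-/

set_option autoImplicit false

open MeasureTheory Filter Topology

namespace Pool.Agent.Q167.KS

open Pool.Agent.Q167.SL Pool.Agent.Q154.SL

/-- the dual function, with a lower bound -/
def S_cutL : Prop := S_lin → S_ext → ∀ (n : ℕ) (r t₀ Δ θ θ₁ M D Dv : ℝ) (v vd : ℝ → ℂ), 0 < n →
  0 ≤ r → r < 1 → 0 < Δ → -1 ≤ t₀ → t₀ + 5 * Δ < 1 → 0 ≤ θ → 6 * θ ≤ 1 → 0 ≤ θ₁ → 0 ≤ M → 0 ≤ D →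
  Fam n r (t₀ + Δ) θ M D → (∀ τ, HasDerivAt v (vd τ) τ) → Continuous vd →
  (∀ τ ∈ Set.Icc (-1 : ℝ) 1, t₀ + 3 * Δ ≤ τ → ‖v τ - 1‖ ≤ θ₁ ∧ ‖vd τ‖ ≤ θ₁) →
  (∀ τ ∈ Set.Icc (-1 : ℝ) 1, (v τ).re ≤ 1 + θ₁) →
  (∀ τ ∈ Set.Icc (-1 : ℝ) 1, τ ≤ t₀ + 2 * Δ → (v τ).re ≤ 6 / 7) →
  (∀ τ ∈ Set.Icc (-1 : ℝ) 1, -θ₁ ≤ (v τ).re) →
  Bd n r Dv v → 84 * ((1 + 2 / Δ) * θ₁ * M) ≤ 1 →
  ∃ v' : ℝ → ℝ, Continuous v' ∧ (∀ τ : ℝ, t₀ + 5 * Δ ≤ τ → τ ≤ 1 → v' τ = 1) ∧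
    (∀ τ : ℝ, -1 ≤ τ → τ ≤ 1 → v' τ ≤ 1) ∧
    (∀ τ : ℝ, -1 ≤ τ → τ ≤ 1 → -(θ₁ + 12 * ((1 + 2 / Δ) * θ₁ * M)) ≤ v' τ) ∧
    Bd n r (Dv + 12 * ((1 + 2 / Δ) * θ₁ * D)) (fun τ => ((v' τ : ℝ) : ℂ))

theorem cutL : S_cutL := by
  intro hlin hext n r t₀ Δ θ θ₁ M D Dv v vd hn hr hr1 hΔ ht₀ ht₁ hθ h6θ hθ₁ hM hD hfam hv hvd hv1
    hv2 hv3 hvn hBv h84
  obtain ⟨lin1, lin2, lin3, lin4⟩ := hlin n r hn hr hr1
  set K : ℝ := 1 + 2 / Δ with hK
  have hK1 : 1 ≤ K := by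
    have : 0 < 2 / Δ := by positivity
    linarith
  have hK0 : 0 ≤ K := by linarith
  have hKΔ : 2 / Δ ≤ K := by linarith
  have hvc : Continuous v := continuous_iff_continuousAt.2 fun τ => (hv τ).continuousAt
  set χ : ℝ → ℝ := st (t₀ + 3 * Δ) Δ with hχ
  set χd : ℝ → ℝ := std (t₀ + 3 * Δ) Δ with hχd
  set b : ℝ → ℝ := fun τ => 1 - st (t₀ + 4 * Δ) Δ τ with hb
  set bd : ℝ → ℝ := fun τ => -std (t₀ + 4 * Δ) Δ τ with hbd
  have hχc : ∀ τ, 0 ≤ χ τ ∧ χ τ ≤ 1 := fun τ =>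
    ⟨(stp_cases _).1, (stp_cases _).2.1⟩
  have hbc : ∀ τ, 0 ≤ b τ ∧ b τ ≤ 1 := fun τ => by
    have h1 := (stp_cases ((τ - (t₀ + 4 * Δ)) / Δ)).1
    have h2 := (stp_cases ((τ - (t₀ + 4 * Δ)) / Δ)).2.1
    simp only [hb, st]
    constructor <;> linarith
  have hsub : ∀ τ ∈ Set.Icc (t₀ + Δ) 1, τ ∈ Set.Icc (-1 : ℝ) 1 := fun τ hτ =>
    ⟨by linarith [hτ.1], hτ.2⟩
  -- first extension
  obtain ⟨w₁, hw1c, hw1e, hw1b, hw1B⟩ := hext n r (t₀ + Δ) θ M D hn hr hr1 (by linarith)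
    (by linarith) hθ hM hD h6θ hfam (K * θ₁) (fun τ => (χ τ : ℂ) * (1 - v τ))
    (fun τ => (χd τ : ℂ) * (1 - v τ) + (χ τ : ℂ) * (-vd τ)) (by positivity)
    (fun τ _ => by
      have h1 : HasDerivAt (fun τ : ℝ => (χ τ : ℂ)) (χd τ : ℂ) τ :=
        (st_deriv (t₀ + 3 * Δ) Δ τ).ofReal_comp
      have h2 : HasDerivAt (fun τ : ℝ => 1 - v τ) (-vd τ) τ := (hv τ).const_sub 1
      exact (h1.mul h2).hasDerivWithinAt)
    (by
      have h1 : Continuous χd := std_cont _ _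
      have h2 : Continuous χ := continuous_iff_continuousAt.2 fun τ =>
        (st_deriv (t₀ + 3 * Δ) Δ τ).continuousAt
      have h3 : Continuous (fun τ : ℝ => (χ τ : ℂ)) := Complex.continuous_ofReal.comp h2
      have h4 : Continuous (fun τ : ℝ => (χd τ : ℂ)) := Complex.continuous_ofReal.comp h1
      exact ((h4.mul (continuous_const.sub hvc)).add (h3.mul hvd.neg)).continuousOn)
    (fun τ hτ => by
      have hτ1 := hsub τ hτ
      rcases le_or_gt τ (t₀ + 3 * Δ) with h | h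
      · have h0 := st_zero (c := t₀ + 3 * Δ) hΔ h
        have e1 : χ τ = 0 := h0.1
        have e2 : χd τ = 0 := h0.2
        rw [e1, e2]
        simp only [Complex.ofReal_zero, zero_mul, add_zero, norm_zero]
        constructor <;> positivity
      · obtain ⟨g1, g2⟩ := hv1 τ hτ1 h.le
        have g1' : ‖1 - v τ‖ ≤ θ₁ := by rw [norm_sub_rev]; exact g1
        have hx : ‖(χ τ : ℂ)‖ ≤ 1 := by
          rw [Complex.norm_real, Real.norm_eq_abs, abs_of_nonneg (hχc τ).1]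
          exact (hχc τ).2
        have hxd : ‖(χd τ : ℂ)‖ ≤ 2 / Δ := by
          rw [Complex.norm_real, Real.norm_eq_abs]
          exact std_abs hΔ τ
        constructor
        · rw [norm_mul]
          calc ‖(χ τ : ℂ)‖ * ‖1 - v τ‖ ≤ 1 * θ₁ :=
                mul_le_mul hx g1' (norm_nonneg _) zero_le_one
            _ ≤ K * θ₁ := mul_le_mul_of_nonneg_right hK1 hθ₁
        · refine (norm_add_le _ _).trans ?_
          rw [norm_mul, norm_mul, norm_neg]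
          have k1 : ‖(χd τ : ℂ)‖ * ‖1 - v τ‖ ≤ 2 / Δ * θ₁ :=
            mul_le_mul hxd g1' (norm_nonneg _) (by positivity)
          have k2 : ‖(χ τ : ℂ)‖ * ‖vd τ‖ ≤ 1 * θ₁ :=
            mul_le_mul hx g2 (norm_nonneg _) zero_le_one
          calc ‖(χd τ : ℂ)‖ * ‖1 - v τ‖ + ‖(χ τ : ℂ)‖ * ‖vd τ‖ ≤ 2 / Δ * θ₁ + 1 * θ₁ :=
                add_le_add k1 k2
            _ = K * θ₁ := by rw [hK]; ring)
  -- second extension
  obtain ⟨w₂, hw2c, hw2e, hw2b, hw2B⟩ := hext n r (t₀ + Δ) θ M D hn hr hr1 (by linarith)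
    (by linarith) hθ hM hD h6θ hfam K (fun τ => (b τ : ℂ)) (fun τ => (bd τ : ℂ)) hK0
    (fun τ _ => by
      have h1 : HasDerivAt b (bd τ) τ := (st_deriv (t₀ + 4 * Δ) Δ τ).const_sub 1
      exact h1.ofReal_comp.hasDerivWithinAt)
    (by
      have h1 : Continuous bd := (std_cont _ _).neg
      exact (Complex.continuous_ofReal.comp h1).continuousOn)
    (fun τ _ => by
      rw [Complex.norm_real, Complex.norm_real, Real.norm_eq_abs, Real.norm_eq_abs]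
      constructor
      · rw [abs_of_nonneg (hbc τ).1]
        exact (hbc τ).2.trans hK1
      · simp only [hbd]
        rw [abs_neg]
        exact (std_abs hΔ τ).trans hKΔ)
  have hval : ∀ τ : ℝ, ((v τ + w₁ τ) + (-(θ₁ : ℂ)) * w₂ τ).re =
      (v τ).re + (w₁ τ).re - θ₁ * (w₂ τ).re := by
    intro τ
    rw [Complex.add_re, Complex.add_re, Complex.mul_re, Complex.neg_re, Complex.neg_im,
      Complex.ofReal_re, Complex.ofReal_im]
    ring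
  have hval2 : ∀ τ ∈ Set.Icc (t₀ + Δ) 1, ((v τ + w₁ τ) + (-(θ₁ : ℂ)) * w₂ τ).re =
      (v τ).re + χ τ * (1 - (v τ).re) - θ₁ * b τ := by
    intro τ hτ
    rw [hval, hw1e τ hτ, hw2e τ hτ]
    simp only [Complex.ofReal_re, Complex.re_ofReal_mul, Complex.sub_re, Complex.one_re]
  have hreb : ∀ τ ∈ Set.Icc (-1 : ℝ) 1, t₀ + 3 * Δ ≤ τ → |1 - (v τ).re| ≤ θ₁ := by
    intro τ hτ h
    have h1 := (hv1 τ hτ h).1
    have h2 := Complex.abs_re_le_norm (v τ - 1)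
    rw [Complex.sub_re, Complex.one_re, abs_sub_comm] at h2
    exact h2.trans h1
  refine ⟨fun τ => ((v τ + w₁ τ) + (-(θ₁ : ℂ)) * w₂ τ).re, ?_, ?_, ?_, ?_, ?_⟩
  · exact Complex.continuous_re.comp ((hvc.add hw1c).add (continuous_const.mul hw2c))
  · intro τ h1 h2
    have hτ : τ ∈ Set.Icc (t₀ + Δ) 1 := ⟨by linarith, h2⟩
    have e1 : χ τ = 1 := st_one hΔ (by linarith)
    have e2 : st (t₀ + 4 * Δ) Δ τ = 1 := st_one hΔ (by linarith)
    have e3 : b τ = 0 := by simp only [hb]; rw [e2]; ring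
    show ((v τ + w₁ τ) + (-(θ₁ : ℂ)) * w₂ τ).re = 1
    rw [hval2 τ hτ, e1, e3]
    ring
  · intro τ h1 h2
    have hτ1 : τ ∈ Set.Icc (-1 : ℝ) 1 := ⟨h1, h2⟩
    show ((v τ + w₁ τ) + (-(θ₁ : ℂ)) * w₂ τ).re ≤ 1
    rcases le_or_gt (t₀ + Δ) τ with ha | ha
    · have hτ : τ ∈ Set.Icc (t₀ + Δ) 1 := ⟨ha, h2⟩
      rw [hval2 τ hτ]
      rcases le_or_gt τ (t₀ + 4 * Δ) with h4 | h4
      · have e3 : b τ = 1 := by
          simp only [hb]
          rw [(st_zero hΔ h4).1]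
          ring
        rw [e3]
        rcases le_or_gt τ (t₀ + 3 * Δ) with h3 | h3
        · have e1 : χ τ = 0 := (st_zero hΔ h3).1
          rw [e1]
          have := hv2 τ hτ1
          linarith
        · have h5 := hreb τ hτ1 h3.le
          have h6 := neg_abs_le (1 - (v τ).re)
          have h7 : 0 ≤ 1 - χ τ := by linarith [(hχc τ).2]
          have h8 : (1 - χ τ) * -(1 - (v τ).re) ≤ (1 - χ τ) * θ₁ :=
            mul_le_mul_of_nonneg_left (by linarith) h7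
          have h9 : (1 - χ τ) * θ₁ ≤ 1 * θ₁ :=
            mul_le_mul_of_nonneg_right (by linarith [(hχc τ).1]) hθ₁
          nlinarith
      · have e1 : χ τ = 1 := st_one hΔ (by linarith)
        rw [e1]
        have : 0 ≤ θ₁ * b τ := mul_nonneg hθ₁ (hbc τ).1
        linarith
    · rw [hval]
      have h3 := hv3 τ hτ1 (by linarith)
      have h4 : (w₁ τ).re ≤ 6 * (K * θ₁) * M :=
        (Complex.re_le_norm _).trans (hw1b τ hτ1)
      have h5 : -(w₂ τ).re ≤ 6 * K * M := by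
        have := Complex.abs_re_le_norm (w₂ τ)
        have := neg_abs_le (w₂ τ).re
        linarith [hw2b τ hτ1]
      have h6 : θ₁ * -(w₂ τ).re ≤ θ₁ * (6 * K * M) := mul_le_mul_of_nonneg_left h5 hθ₁
      nlinarith
  · intro τ h1 h2
    have hτ1 : τ ∈ Set.Icc (-1 : ℝ) 1 := ⟨h1, h2⟩
    show -(θ₁ + 12 * (K * θ₁ * M)) ≤ ((v τ + w₁ τ) + (-(θ₁ : ℂ)) * w₂ τ).re
    rw [hval]
    have h3 := hvn τ hτ1
    have h4 := (abs_le.1 ((Complex.abs_re_le_norm _).trans (hw1b τ hτ1))).1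
    have h5 : (w₂ τ).re ≤ 6 * K * M := (Complex.re_le_norm _).trans (hw2b τ hτ1)
    have h6 : θ₁ * (w₂ τ).re ≤ θ₁ * (6 * K * M) := mul_le_mul_of_nonneg_left h5 hθ₁
    nlinarith
  · have k1 := lin1 v w₁ Dv (6 * (K * θ₁) * D) hvc hw1c hBv hw1B
    have k2 := lin2 w₂ (6 * K * D) (-(θ₁ : ℂ)) hw2B
    rw [norm_neg, Complex.norm_real, Real.norm_eq_abs, abs_of_nonneg hθ₁] at k2
    have k3 := lin1 _ _ _ _ (hvc.add hw1c) (continuous_const.mul hw2c) k1 k2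
    have k4 := lin3 _ _ ((hvc.add hw1c).add (continuous_const.mul hw2c)) k3
    have e : Dv + 12 * (K * θ₁ * D) = Dv + 6 * (K * θ₁) * D + θ₁ * (6 * K * D) := by ring
    rw [e]
    exact k4

end Pool.Agent.Q167.KS
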