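import Mathlib
import Pool.Agent.Q176.SL.TAC
import Pool.Agent.TH41.BL.ASME

/-!
# The test function with the pole at `0`: two-sided bounds (helper167, after helper176)
-/

set_option autoImplicit false

open MeasureTheory Filter Topology

namespace Pool.Agent.Q167.KS

open Pool.Agent.TH41.BL (QBG vS k4_left k4_trans S4_left S4_trans)
open Pool.Agent.Q167.SL
open Pool.Agent.Q176.SL.TAC

/-- the test function with the pole at `0`, two-sided bounds -/
def S_tvL : Prop := ∀ (η R : ℝ) (σ P t : ℂ → ℂ), SKer η R σ P t → 0 < (deriv σ 0).re →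
  ∀ κ Δ ε : ℝ, 0 < κ → κ ≤ 1 → 0 < Δ → 0 < ε → ∃ ε₁ : ℝ, 0 < ε₁ ∧ ∀ r : ℝ, 0 ≤ r → r < 1 →
  ∃ n₀ : ℕ, ∀ n : ℕ, n₀ ≤ n → ∃ v vd : ℝ → ℂ, (∀ τ, HasDerivAt v (vd τ) τ) ∧ Continuous vd ∧
    (∀ τ ∈ Set.Icc (-1 : ℝ) 1, κ + Δ ≤ (deriv σ 0).re * (τ - (t 0).re) →
      ‖v τ - 1‖ ≤ Real.exp (-ε₁ * n) ∧ ‖vd τ‖ ≤ Real.exp (-ε₁ * n)) ∧
    (∀ τ ∈ Set.Icc (-1 : ℝ) 1, (v τ).re ≤ 1 + Real.exp (-ε₁ * n)) ∧
    (∀ τ ∈ Set.Icc (-1 : ℝ) 1, (deriv σ 0).re * (τ - (t 0).re) ≤ κ → (v τ).re ≤ 6 / 7) ∧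
    (∀ τ ∈ Set.Icc (-1 : ℝ) 1, -Real.exp (-ε₁ * n) ≤ (v τ).re) ∧
    Bd n r (Real.exp (-(n * (R - ε - κ * η)))) v

theorem tvL : S_qba → S_expk → S_bsh → S_bdual → S_bseg → S_blan → S_tvL := by
  intro hqba hexpk hbsh hbdual hbseg hblan η R σ P t h hd0 k Δ ε hk hk1 hΔ hε
  have hη := h.eta_pos
  set d : ℝ := (deriv σ 0).re with hd
  set t₀ : ℝ := (t 0).re with ht₀
  set T : ℝ := 3 with hT
  have hT0 : 0 < T := by norm_num
  obtain ⟨C, κ, hC, hκ, hκ2, HQ⟩ := qk hqba h T hT0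
  set εg : ℝ := min 1 (ε / (2 * η ^ 2)) with hεg
  have hεg0 : 0 < εg := lt_min one_pos (by positivity)
  have hεg1 : εg * η ^ 2 ≤ ε / 2 := by
    calc εg * η ^ 2 ≤ ε / (2 * η ^ 2) * η ^ 2 := by
          gcongr
          exact min_le_right _ _
      _ = ε / 2 := by field_simp
  have hkabs : |k| ≤ 1 := by rw [abs_of_pos hk]; exact hk1
  obtain ⟨Δ₀, hΔ₀, c₃, hc₃, H0⟩ := k4_trans T C κ hT0 hC hκ hκ2 εg k hεg0 (min_le_left _ _) hkabs
  set Δ₁ : ℝ := min (Δ / 2) Δ₀ with hΔ₁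
  have hΔ₁0 : 0 < Δ₁ := lt_min (by positivity) hΔ₀
  obtain ⟨c₁, hc₁, H1⟩ := k4_left T C κ hT0 hC hκ hκ2 εg k Δ₁ 1 hεg0 hkabs hΔ₁0 one_pos
  obtain ⟨⟨c₂, hc₂, hc₂η, H2⟩, H3⟩ := hbseg hbsh η R σ P t h T εg 1 hT0 hεg0 one_pos
  set c : ℝ := min (min c₁ c₂) c₃ with hc
  have hc0 : 0 < c := lt_min (lt_min hc₁ hc₂) hc₃
  have hcc₁ : c ≤ c₁ := (min_le_left _ _).trans (min_le_left _ _)
  have hcc₂ : c ≤ c₂ := (min_le_left _ _).trans (min_le_right _ _)
  have hcη : c < η := lt_of_le_of_lt hcc₂ hc₂η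
  obtain ⟨e₁, he₁, n₁, H1'⟩ := H1 c hc0 hcc₁
  obtain ⟨e₂, he₂, n₂, H2'⟩ := H2 c hc0 hcc₂
  obtain ⟨e₃, he₃, n₃, H0'⟩ := H0 c hc0 (min_le_right _ _)
  set e : ℝ := min (min e₁ e₂) e₃ with he
  have he0 : 0 < e := lt_min (lt_min he₁ he₂) he₃
  have hee₁ : e ≤ e₁ := (min_le_left _ _).trans (min_le_left _ _)
  have hee₂ : e ≤ e₂ := (min_le_left _ _).trans (min_le_right _ _)
  have hee₃ : e ≤ e₃ := min_le_right _ _
  refine ⟨e / 4, by positivity, ?_⟩
  intro r hr0 hr1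
  obtain ⟨n₄, H3'⟩ := H3 (e / 8) (by positivity)
  obtain ⟨n₅, H4⟩ := hbdual hexpk hbsh η R σ P t h εg (ε / 2) r hεg0 (by positivity) hr0 hr1
  set ℓ : ℝ := min 2 (Δ / (2 * d)) with hℓ
  have hℓ0 : 0 < ℓ := lt_min two_pos (by positivity)
  obtain ⟨n₆, H5⟩ := lan_step hblan e ℓ 1 he0 hℓ0
  obtain ⟨n₇, H6⟩ := exp_cmp e (e / 4) 2 1 (by linarith) one_pos
  obtain ⟨n₈, H7⟩ := exp_cmp e 0 1 (1 / 42) he0 (by norm_num)
  refine ⟨n₁ + n₂ + n₃ + n₄ + n₅ + n₆ + n₇ + n₈ + 1, ?_⟩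
  intro n hn
  have hn0 : 0 < n := by omega
  have hn' : (0 : ℝ) ≤ n := Nat.cast_nonneg n
  obtain ⟨u₁, u₂, hu₁, hu₂, hu₂c, hub⟩ := H3' n (by omega) k 0 c hkabs hc0 hcη
  have mono : ∀ x : ℝ, e ≤ x → Real.exp (-x * n) ≤ Real.exp (-e * n) := by
    intro x hx
    apply Real.exp_le_exp.mpr
    nlinarith
  -- passing to the segment
  have hseg : ∀ τ : ℝ, |τ| ≤ 1 → ‖tf σ P n εg k c 0 τ -
      vS (fun s => Complex.exp (n * (σ s * τ + P s))) T n εg k c 0‖ ≤ Real.exp (-e * n) := by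
    intro τ hτ
    exact (H2' n (by omega) k 0 τ hkabs (by norm_num [hT]) hτ).trans (mono _ hee₂)
  -- the left region
  have hleft : ∀ τ : ℝ, |τ| ≤ 1 → k + Δ₁ ≤ d * (τ - t₀) →
      ‖tf σ P n εg k c 0 τ - 1‖ ≤ 2 * Real.exp (-e * n) := by
    intro τ hτ hb
    obtain ⟨g, hQ⟩ := HQ τ hτ n hn0
    have h1 := (H1' n (by omega) _ _ _ _ hQ 0 (by norm_num [hT])).1 (by
      simp only [Complex.ofReal_zero, zero_mul]
      exact hb)
    have e1 : Complex.exp (n * (σ (((0 : ℝ) : ℂ) * Complex.I) * τ +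
        P (((0 : ℝ) : ℂ) * Complex.I))) = 1 := by
      have s0 : σ 0 = 0 := by
        have := h.s_odd 0
        rw [neg_zero] at this
        linear_combination (1 / 2 : ℂ) * this
      simp [P0 h, s0]
    simp only [e1] at h1
    calc _ ≤ ‖tf σ P n εg k c 0 τ -
          vS (fun s => Complex.exp (n * (σ s * τ + P s))) T n εg k c 0‖ +
          ‖vS (fun s => Complex.exp (n * (σ s * τ + P s))) T n εg k c 0 - 1‖ :=
            norm_sub_le_norm_sub_add_norm_sub _ _ _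
      _ ≤ Real.exp (-e * n) + Real.exp (-e * n) :=
            add_le_add (hseg τ hτ) (h1.trans (mono _ hee₁))
      _ = 2 * Real.exp (-e * n) := by ring
  have hre : ∀ (z w : ℂ) (A : ℝ), ‖z - w‖ ≤ A → z.re ≤ w.re + A := by
    intro z w A hA
    have := (Complex.re_le_norm (z - w)).trans hA
    simp only [Complex.sub_re] at this
    linarith
  have hone : ∀ τ : ℝ, |τ| ≤ 1 → (tf σ P n εg k c 0 τ).re ≤ 1 + 2 * Real.exp (-e * n) := by
    intro τ hτ
    obtain ⟨g, hQ⟩ := HQ τ hτ n hn0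
    by_cases hb : d * (τ - t₀) ≤ k + Δ₀
    · have h1 := (H0' n (by omega) _ _ _ _ hQ).1 hb
      have h2 := hre _ _ _ (hseg τ hτ)
      have h3 := mono _ hee₃
      linarith
    · have h1 := hleft τ hτ (by
        have := min_le_right (Δ / 2) Δ₀
        push Not at hb
        linarith)
      have h2 := hre _ _ _ h1
      simpa using h2
  have hneg : ∀ τ : ℝ, |τ| ≤ 1 → -(2 * Real.exp (-e * n)) ≤ (tf σ P n εg k c 0 τ).re := by
    intro τ hτ
    obtain ⟨g, hQ⟩ := HQ τ hτ n hn0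
    have h2 := hseg τ hτ
    rw [norm_sub_rev] at h2
    have h2' := hre _ _ _ h2
    by_cases hb : k - Δ₀ ≤ d * (τ - t₀)
    · have h1 := (H0' n (by omega) _ _ _ _ hQ).2.2 hb
      have h3 := mono _ hee₃
      linarith
    · have h1 := (H1' n (by omega) _ _ _ _ hQ 0 (by norm_num [hT])).2 (by
        have := min_le_right (Δ / 2) Δ₀
        push Not at hb
        simp only [Complex.ofReal_zero, zero_mul]
        change d * (τ - t₀) ≤ k - Δ₁
        linarith)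
      have h3 := mono _ hee₁
      have h4 := (abs_le.1 ((Complex.abs_re_le_norm _).trans h1)).1
      linarith
  refine ⟨tf σ P n εg k c 0, u₁, hu₁, continuous_iff_continuousAt.mpr
    fun τ => (hu₂ τ).continuousAt, ?_, ?_, ?_, ?_, ?_⟩
  · intro τ hτ hb
    have hτ1 : |τ| ≤ 1 := abs_le.mpr hτ
    constructor
    · have h1 := hleft τ hτ1 (by
        have := min_le_left (Δ / 2) Δ₀
        linarith)
      have h2 := H6 n (by omega)
      rw [one_mul] at h2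
      exact h1.trans h2
    · set a : ℝ := max (-1) (t₀ + (k + Δ / 2) / d) with ha
      have hdivle : ∀ x : ℝ, t₀ + (k + x) / d ≤ τ ↔ k + x ≤ d * (τ - t₀) := by
        intro x
        rw [← le_sub_iff_add_le', div_le_iff₀ hd0, mul_comm]
      have haτ : τ ∈ Set.Icc a 1 := by
        refine ⟨max_le hτ.1 ?_, hτ.2⟩
        rw [hdivle]
        linarith
      have hℓa : ℓ ≤ 1 - a := by
        have h1 : t₀ + (k + Δ) / d ≤ τ := (hdivle Δ).mpr hb
        have h2 : t₀ + (k + Δ / 2) / d ≤ 1 - Δ / (2 * d) := by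
          have : (k + Δ / 2) / d = (k + Δ) / d - Δ / (2 * d) := by
            field_simp
            ring
          rw [this]
          linarith [hτ.2]
        rcases max_choice (-1 : ℝ) (t₀ + (k + Δ / 2) / d) with h3 | h3
        · have := min_le_left 2 (Δ / (2 * d))
          rw [ha, h3]
          linarith
        · have := min_le_right 2 (Δ / (2 * d))
          rw [ha, h3]
          linarith
      refine H5 n (by omega) a 1 (fun τ => tf σ P n εg k c 0 τ - 1) u₁ u₂ hℓa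
        (fun τ => (hu₁ τ).sub_const 1) hu₂ ?_ ?_ τ haτ
      · intro x hx
        have hx1 : |x| ≤ 1 := abs_le.mpr ⟨(le_max_left _ _).trans hx.1, hx.2⟩
        apply hleft x hx1
        have h1 : t₀ + (k + Δ / 2) / d ≤ x := (le_max_right _ _).trans hx.1
        have h2 : (k + Δ / 2) / d ≤ x - t₀ := by linarith
        rw [div_le_iff₀ hd0] at h2
        have := min_le_left (Δ / 2) Δ₀
        linarith
      · intro x hx
        have hx1 : |x| ≤ 1 := abs_le.mpr ⟨(le_max_left _ _).trans hx.1, hx.2⟩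
        refine (hub x hx1).2.2.trans ?_
        rw [one_mul]
        apply le_mul_of_one_le_left (Real.exp_pos _).le
        nlinarith
  · intro τ hτ
    have h1 := hone τ (abs_le.mpr hτ)
    have h2 := H6 n (by omega)
    rw [one_mul] at h2
    linarith
  · intro τ hτ hb
    have hτ1 : |τ| ≤ 1 := abs_le.mpr hτ
    obtain ⟨g, hQ⟩ := HQ τ hτ1 n hn0
    have h1 := (H0' n (by omega) _ _ _ _ hQ).2.1 hb
    have h2 := hre _ _ _ (hseg τ hτ1)
    have h3 := H7 n (by omega)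
    rw [neg_zero, zero_mul, Real.exp_zero, one_mul, mul_one] at h3
    linarith
  · intro τ hτ
    have h1 := hneg τ (abs_le.mpr hτ)
    have h2 := H6 n (by omega)
    rw [one_mul] at h2
    linarith
  · refine Bd_mono (Real.exp_pos _) ?_ (H4 n (by omega) k 0 c hc0 hcη)
    apply Real.exp_le_exp.mpr
    rw [abs_of_pos hk]
    have : -R + ε / 2 + εg * η ^ 2 + k * η ≤ -(R - ε - k * η) := by linarith
    calc (n : ℝ) * (-R + ε / 2 + εg * η ^ 2 + k * η) ≤ n * (-(R - ε - k * η)) := by gcongr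
      _ = -(n * (R - ε - k * η)) := by ring

end Pool.Agent.Q167.KS
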