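import Mathlib
import Pool.Agent.Q167.SL.All
import Pool.Agent.Q167.KS.TVL
import Pool.Agent.Q167.KS.CutL

/-!
# Dual functions with values in `[-exp(-cn), 1]` (helper167, MP_b5f63d_co)
-/

set_option autoImplicit false

open MeasureTheory Filter Topology

namespace Pool.Agent.Q167.KS

open Pool.Agent.Q167.SL

theorem vex0 (hlin : S_lin) (hext : S_ext) (htv : S_tvL) (hcut : S_cutL) (h1 : S_k1)
    (hk : ∀ η : ℝ, 0 < η → SKer η (Ph η) (sg η) (Ps η) (tt η))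
    (hfam : ∀ η a ε : ℝ, 0 < η → (tt η 0).re < a → 0 ≤ a → a < 1 → 0 < ε → ∃ ε₁ : ℝ, 0 < ε₁ ∧
      ∀ ε₂ r : ℝ, 0 < ε₂ → 0 ≤ r → r < 1 → ∃ n₀ : ℕ, ∀ n : ℕ, n₀ ≤ n →
        Fam n r a (Real.exp (-(ε₁ * n))) (Real.exp (ε₂ * n)) (Real.exp (-(n * (Ph η - ε)))))
    (η s ε : ℝ) (hη : 0 < η) (hs : eS η / oS η < s) (hs1 : s < 1) (hε : 0 < ε) :
    ∃ c δ r : ℝ, 0 < c ∧ 0 < δ ∧ δ < s ∧ 0 < r ∧ r < 1 ∧ ∃ n₀ : ℕ, ∀ n : ℕ, n₀ ≤ n →
      ∃ v : ℝ → ℝ, Continuous v ∧ (∀ τ : ℝ, (s - δ) * r ^ 2 ≤ τ → τ ≤ 1 → v τ = 1) ∧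
      (∀ τ : ℝ, -1 ≤ τ → τ ≤ 1 → v τ ≤ 1) ∧
      (∀ τ : ℝ, -1 ≤ τ → τ ≤ 1 → -Real.exp (-(c * n)) ≤ v τ) ∧
      Bd n r (Real.exp (-(n * (Ph η - ε)))) (fun τ => ((v τ : ℝ) : ℂ)) := by
  obtain ⟨-, -, -, -, -, -, -, hO, ht, hO0, hE0⟩ := h1 η hη
  set O := oS η with hOdef
  set t₀ := eS η / O with ht₀
  have hOre : (deriv (sg η) 0).re = O := by rw [hO]; simp
  have htre : (tt η 0).re = t₀ := by rw [ht]; simp
  have ht0 : 0 < t₀ := div_pos hE0 hO0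
  have hs0 : 0 < s := ht0.trans hs
  -- the step
  obtain ⟨Δ, hΔ0, hΔ1, hΔ2, hΔ3⟩ : ∃ Δ : ℝ, 0 < Δ ∧ t₀ + 5 * Δ < s ∧ 2 * Δ * O ≤ 1 ∧
      2 * Δ * O * η ≤ ε / 4 := by
    refine ⟨min ((s - t₀) / 10) (min (1 / (2 * O)) (ε / (8 * O * η))), ?_, ?_, ?_, ?_⟩
    · have : 0 < s - t₀ := by linarith
      positivity
    · have h := min_le_left ((s - t₀) / 10) (min (1 / (2 * O)) (ε / (8 * O * η)))
      linarith
    · have h := (min_le_right ((s - t₀) / 10) (min (1 / (2 * O)) (ε / (8 * O * η)))).trans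
        (min_le_left _ _)
      calc _ ≤ 2 * (1 / (2 * O)) * O := by gcongr
        _ = 1 := by field_simp
    · have h := (min_le_right ((s - t₀) / 10) (min (1 / (2 * O)) (ε / (8 * O * η)))).trans
        (min_le_right _ _)
      calc _ ≤ 2 * (ε / (8 * O * η)) * O * η := by gcongr
        _ = ε / 4 := by field_simp; norm_num
  have hκ0 : 0 < 2 * Δ * O := by positivity
  obtain ⟨ε₁, hε₁, hv⟩ := htv η (Ph η) (sg η) (Ps η) (tt η) (hk η hη) (by rw [hOre]; exact hO0)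
    (2 * Δ * O) (Δ * O) (ε / 4) hκ0 hΔ2 (by positivity) (by positivity)
  obtain ⟨ε₁', hε₁', hf⟩ := hfam η (t₀ + Δ) (ε / 4) hη (by rw [htre]; linarith) (by linarith)
    (by linarith) (by positivity)
  obtain ⟨s₁, hs₁, hs₁'⟩ := exists_between hΔ1
  have hs₁0 : 0 < s₁ := by linarith
  have hq : 0 < (t₀ + 5 * Δ) / s₁ := by positivity
  have hq1 : (t₀ + 5 * Δ) / s₁ < 1 := by rw [div_lt_one hs₁0]; exact hs₁
  set r := √((t₀ + 5 * Δ) / s₁) with hr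
  have hr0 : 0 < r := Real.sqrt_pos.2 hq
  have hr1 : r < 1 := by
    rw [hr, Real.sqrt_lt' one_pos]
    simpa using hq1
  have hsr : s₁ * r ^ 2 = t₀ + 5 * Δ := by
    rw [hr, Real.sq_sqrt hq.le]
    field_simp
  set K := 1 + 2 / Δ with hK
  have hK0 : 1 ≤ K := by
    have : 0 < 2 / Δ := by positivity
    linarith
  obtain ⟨n₁, hn₁⟩ := hv r hr0.le hr1
  obtain ⟨n₂, hn₂⟩ := hf (ε₁ / 2) r (by positivity) hr0.le hr1
  obtain ⟨n₃, hn₃⟩ := ev_exp (ε₁ / 2) (84 * K) (by positivity)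
  obtain ⟨n₄, hn₄⟩ := ev_exp ε₁' 6 hε₁'
  obtain ⟨n₅, hn₅⟩ := ev_exp (ε / 2) 2 (by positivity)
  obtain ⟨n₆, hn₆⟩ := ev_exp (ε₁ / 4) (13 * K) (by positivity)
  refine ⟨ε₁ / 4, s - s₁, r, by positivity, by linarith, by linarith, hr0, hr1,
    n₁ + n₂ + n₃ + n₄ + n₅ + n₆ + 1, fun n hn => ?_⟩
  have hn0 : 0 < n := by omega
  obtain ⟨v, vd, hd, hdc, hnear, hone, hfar, hlow, hbd⟩ := hn₁ n (by omega)
  have hF := hn₂ n (by omega)
  have h3 := hn₃ n (by omega)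
  have h4 := hn₄ n (by omega)
  have h5 := hn₅ n (by omega)
  have h6 := hn₆ n (by omega)
  rw [hOre, htre] at hnear hfar
  -- smallness
  have hsm : 84 * (K * Real.exp (-ε₁ * n) * Real.exp (ε₁ / 2 * n)) ≤ 1 := by
    have e1 : Real.exp (-ε₁ * n) * Real.exp (ε₁ / 2 * n) = (Real.exp (ε₁ / 2 * n))⁻¹ := by
      rw [← Real.exp_add, ← Real.exp_neg]
      congr 1
      ring
    have e2 : 84 * (K * Real.exp (-ε₁ * n) * Real.exp (ε₁ / 2 * n)) =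
        84 * K * (Real.exp (ε₁ / 2 * n))⁻¹ := by
      rw [mul_assoc K, e1]
      ring
    rw [e2, ← div_eq_mul_inv, div_le_one (Real.exp_pos _)]
    exact h3
  have hθ6 : 6 * Real.exp (-(ε₁' * n)) ≤ 1 := by
    rw [Real.exp_neg, ← div_eq_mul_inv, div_le_one (Real.exp_pos _)]
    exact h4
  obtain ⟨v', hv'c, hv'1, hv'2, hv'l, hv'3⟩ := hcut hlin hext n r t₀ Δ (Real.exp (-(ε₁' * n)))
    (Real.exp (-ε₁ * n)) (Real.exp (ε₁ / 2 * n)) (Real.exp (-(n * (Ph η - ε / 4)))) _ v vd hn0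
    hr0.le hr1 hΔ0 (by linarith) (by linarith) (Real.exp_pos _).le hθ6 (Real.exp_pos _).le
    (Real.exp_pos _).le (Real.exp_pos _).le hF hd hdc
    (fun τ hτ h => hnear τ hτ (by nlinarith)) hone
    (fun τ hτ h => hfar τ hτ (by nlinarith)) hlow hbd hsm
  have hD : Real.exp (-(n * (Ph η - ε / 4 - 2 * Δ * O * η))) +
      12 * (K * Real.exp (-ε₁ * n) * Real.exp (-(n * (Ph η - ε / 4)))) ≤
      Real.exp (-(n * (Ph η - ε))) := by
    have hnr : (0 : ℝ) < n := by exact_mod_cast hn0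
    have a1 : Real.exp (-(n * (Ph η - ε / 4 - 2 * Δ * O * η))) ≤
        Real.exp (-(n * (Ph η - ε / 2))) := by
      apply Real.exp_le_exp.2
      nlinarith
    have a2 : 12 * (K * Real.exp (-ε₁ * n)) ≤ 1 := by
      have b1 : 1 ≤ Real.exp (ε₁ / 2 * n) := Real.one_le_exp (by positivity)
      have b2 : 0 < K * Real.exp (-ε₁ * n) := by positivity
      nlinarith
    have a3 : Real.exp (-(n * (Ph η - ε / 4))) ≤ Real.exp (-(n * (Ph η - ε / 2))) := by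
      apply Real.exp_le_exp.2
      nlinarith
    have a4 : 12 * (K * Real.exp (-ε₁ * n) * Real.exp (-(n * (Ph η - ε / 4)))) ≤
        Real.exp (-(n * (Ph η - ε / 2))) := by
      calc _ = 12 * (K * Real.exp (-ε₁ * n)) * Real.exp (-(n * (Ph η - ε / 4))) := by ring
        _ ≤ 1 * Real.exp (-(n * (Ph η - ε / 4))) := by gcongr
        _ ≤ _ := by rw [one_mul]; exact a3
    have a5 : 2 * Real.exp (-(n * (Ph η - ε / 2))) ≤ Real.exp (-(n * (Ph η - ε))) := by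
      calc _ ≤ Real.exp (ε / 2 * n) * Real.exp (-(n * (Ph η - ε / 2))) := by gcongr
        _ = _ := by rw [← Real.exp_add]; congr 1; ring
    linarith
  have hlb := (hlin n r hn0 hr0.le hr1).2.2.2 _ _ _ hD hv'3
  refine ⟨v', hv'c, fun τ h h' => hv'1 τ ?_ h', hv'2, fun τ h h' => le_trans ?_ (hv'l τ h h'), hlb⟩
  · rw [← hsr]
    have : s - (s - s₁) = s₁ := by ring
    rw [this] at h
    exact h
  · rw [neg_le_neg_iff]
    have hnr : (0 : ℝ) < n := by exact_mod_cast hn0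
    have b1 : Real.exp (-ε₁ * n) ≤ Real.exp (-(ε₁ / 2 * n)) := by
      apply Real.exp_le_exp.2
      nlinarith
    have b2 : Real.exp (-ε₁ * n) * Real.exp (ε₁ / 2 * n) = Real.exp (-(ε₁ / 2 * n)) := by
      rw [← Real.exp_add]
      congr 1
      ring
    have b3 : Real.exp (ε₁ / 4 * n) * Real.exp (-(ε₁ / 2 * n)) = Real.exp (-(ε₁ / 4 * n)) := by
      rw [← Real.exp_add]
      congr 1
      ring
    calc Real.exp (-ε₁ * n) + 12 * (K * Real.exp (-ε₁ * n) * Real.exp (ε₁ / 2 * n))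
        = Real.exp (-ε₁ * n) + 12 * (K * (Real.exp (-ε₁ * n) * Real.exp (ε₁ / 2 * n))) := by ring
      _ ≤ K * Real.exp (-(ε₁ / 2 * n)) + 12 * (K * Real.exp (-(ε₁ / 2 * n))) := by
        rw [b2]
        have := Real.exp_pos (-(ε₁ / 2 * n))
        nlinarith
      _ = (13 * K) * Real.exp (-(ε₁ / 2 * n)) := by ring
      _ ≤ Real.exp (ε₁ / 4 * n) * Real.exp (-(ε₁ / 2 * n)) := by gcongr
      _ = _ := b3

/-- **Dual functions with values in `[-exp(-cn), 1]`.** -/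
theorem vex (η s ε : ℝ) (hη : 0 < η) (hs : eS η / oS η < s) (hs1 : s < 1) (hε : 0 < ε) :
    ∃ c δ r : ℝ, 0 < c ∧ 0 < δ ∧ δ < s ∧ 0 < r ∧ r < 1 ∧ ∃ n₀ : ℕ, ∀ n : ℕ, n₀ ≤ n →
      ∃ v : ℝ → ℝ, Continuous v ∧ (∀ τ : ℝ, (s - δ) * r ^ 2 ≤ τ → τ ≤ 1 → v τ = 1) ∧
      (∀ τ : ℝ, -1 ≤ τ → τ ≤ 1 → v τ ≤ 1) ∧
      (∀ τ : ℝ, -1 ≤ τ → τ ≤ 1 → -Real.exp (-(c * n)) ≤ v τ) ∧
      Bd n r (Real.exp (-(n * (Ph η - ε)))) (fun τ => ((v τ : ℝ) : ℂ)) :=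
  vex0 Pool.Agent.Q119.SL.lin (Pool.Agent.Q144.SL.ext Pool.Agent.Q144.SL.four)
    (tvL Pool.Agent.Q176.SL.QBA.qba expk' Pool.Agent.Q91.SL.bsh
      Pool.Agent.Q91.SL.bdual Pool.Agent.Q190.SL.bseg Pool.Agent.Q225.SL.blan) cutL k1' k6'
    (Pool.Agent.Q190.SL.fa Pool.Agent.Q119.SL.lin ta' expk' k6'
      (Pool.Agent.Q24.SL.k3 k1' k3a')
      (Pool.Agent.Q119.SL.fc k1' Pool.Agent.Q2.SL.k4 Pool.Agent.Q24.SL.k5) k7'.2) η s ε hη hs hs1 hε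

end Pool.Agent.Q167.KS
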