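import Mathlib
import Pool.Agent.Q167.KS.Bar
import Pool.Agent.Q167.KS.Vex
import Pool.Agent.Q154.SL.Upc
import Pool.Agent.TH41.BL.Stm11

/-!
# The exact rate of the k-point bounds for spherical codes (helper167, MP_b5f63d_co)
-/

set_option autoImplicit false
set_option linter.unusedSectionVars false

open MeasureTheory Filter Topology

namespace Pool.Agent.Q167.KS

open Pool.Agent.Q167.SL Pool.Agent.Y570.SP
open Pool.Agent.TH41.KL (PD cosA)

lemma nu_real (n : ℕ) (r : ℝ) : (nu (E n) r).real Set.univ = vs n r := by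
  unfold nu vs
  rw [measureReal_def, Measure.restrict_apply_univ]
  rfl

/-- the dual function on the whole line -/
lemma mk_dualF {n : ℕ} {s₁ r θ D : ℝ} {v' : ℝ → ℝ} (hc : Continuous v') (hr0 : 0 ≤ r) (hr : r < 1)
    (hs0 : 0 ≤ s₁) (hs : s₁ ≤ 1)
    (h1 : ∀ τ : ℝ, s₁ * r ^ 2 ≤ τ → τ ≤ 1 → v' τ = 1)
    (h2 : ∀ τ : ℝ, -1 ≤ τ → τ ≤ 1 → v' τ ≤ 1) (h3 : ∀ τ : ℝ, -1 ≤ τ → τ ≤ 1 → -θ ≤ v' τ)
    (hB : Bd n r D (fun τ => ((v' τ : ℝ) : ℂ))) :
    ∃ v : ℝ → ℝ, DualF s₁ r θ v ∧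
      ∀ g : ℝ → ℝ, Continuous g → (∀ (k : ℕ) (x : Fin k → E n) (c : Fin k → ℝ),
        (∀ i, ‖x i‖ = 1) → 0 ≤ ∑ i, ∑ j, c i * c j * g (inner ℝ (x i) (x j))) →
        |∫ x, ∫ y, g (inner ℝ x y / (‖x‖ * ‖y‖)) * v (inner ℝ x y) ∂(nu (E n) r) ∂(nu (E n) r)| ≤
          D * g 1 * (nu (E n) r).real Set.univ ^ 2 := by
  have hsr : s₁ * r ^ 2 ≤ 1 := by
    have : r ^ 2 ≤ 1 := pow_le_one₀ hr0 hr.le
    nlinarith
  refine ⟨fun τ => v' (max (-1) (min 1 τ)), ⟨?_, ?_, ?_, ?_⟩, ?_⟩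
  · exact hc.comp (continuous_const.max (continuous_const.min continuous_id))
  · intro τ hτ
    have h0 : 0 ≤ s₁ * r ^ 2 := by positivity
    refine h1 _ ?_ ?_
    · exact le_trans (le_min hsr hτ) (le_max_right _ _)
    · exact max_le (by norm_num) (min_le_left _ _)
  · intro τ
    exact h2 _ (le_max_left _ _) (max_le (by norm_num) (min_le_left _ _))
  · intro τ
    exact h3 _ (le_max_left _ _) (max_le (by norm_num) (min_le_left _ _))
  · intro g hg hpd
    have h4 := hB g hg.continuousOn hpd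
    have h5 : pr n r g (fun τ => ((v' τ : ℝ) : ℂ)) =
        ((∫ x, ∫ y, g (inner ℝ x y / (‖x‖ * ‖y‖)) * v' (max (-1) (min 1 (inner ℝ x y)))
          ∂(nu (E n) r) ∂(nu (E n) r) : ℝ) : ℂ) := by
      unfold pr
      rw [← integral_complex_ofReal]
      refine integral_congr_ae ?_
      filter_upwards [ae_shell (E := E n) r] with x hx
      rw [← integral_complex_ofReal]
      refine integral_congr_ae ?_
      filter_upwards [ae_shell (E := E n) r] with y hy
      have h6 : |(inner ℝ x y : ℝ)| ≤ 1 := by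
        refine (abs_real_inner_le_norm _ _).trans ?_
        have h7 := hx.2.le
        have h8 := hy.2.le
        have h9 := norm_nonneg x
        have h10 := norm_nonneg y
        nlinarith
      rw [abs_le] at h6
      rw [min_eq_right h6.2, max_eq_right h6.1]
      unfold cosA
      push_cast
      rfl
    rw [h5, Complex.norm_real, Real.norm_eq_abs, ← nu_real] at h4
    exact h4

lemma shell_pos {n : ℕ} {r : ℝ} (h : 0 < vs n r) : 0 < (nu (E n) r).real Set.univ := by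
  rw [nu_real]
  exact h

/-- **Pseudo-codes of exponential level.** -/
theorem low_k (η s ε : ℝ) (hη : 0 < η) (hs : eS η / oS η < s) (hs1 : s < 1) (hε : 0 < ε) :
    ∃ c : ℝ, 0 < c ∧ ∀ᶠ n : ℕ in atTop, ∀ k : ℕ, (k : ℝ) ≤ Real.exp (c * n) →
      ∃ X : Finset (E n), (∀ x ∈ X, ‖x‖ = 1) ∧ ∃ y : Finset X → ℝ, SCode n k s X y ∧
        Real.exp (n * (Ph η - ε)) ≤ ∑ x, y {x} := by
  obtain ⟨c, δ, r, hc, hδ, hδs, hr0, hr1, n₀, hn₀⟩ := vex η s (ε / 2) hη hs hs1 (by positivity)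
  obtain ⟨n₁, hn₁⟩ := Pool.Agent.Q119.SL.vol r 1 hr0.le hr1 one_pos
  obtain ⟨n₂, hn₂⟩ := ev_exp (ε / 2) 12 (by positivity)
  refine ⟨c, hc, ?_⟩
  filter_upwards [eventually_ge_atTop (n₀ + n₁ + n₂ + 2)] with n hn k hk
  obtain ⟨v', hv1, hv2, hv3, hv4, hv5⟩ := hn₀ n (by omega)
  obtain ⟨v, hv, hB⟩ := mk_dualF hv1 hr0.le hr1 (by linarith) (by linarith) hv2 hv3 hv4 hv5
  have hfin : Module.finrank ℝ (E n) = (n - 2) + 2 := by
    rw [finrank_euclideanSpace_fin]
    omega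
  have hQ := fun (a : E n → ℝ) (ha : Continuous a) =>
    avg hfin hr0.le hv.cont hv.bd hB a ha
  have hM := shell_pos (hn₁ n (by omega)).1
  have hkK : (1 + Real.exp (-(c * n))) ^ k ≤ 2.72 := by
    have h1 : 1 + Real.exp (-(c * n)) ≤ Real.exp (Real.exp (-(c * n))) := by
      have := Real.add_one_le_exp (Real.exp (-(c * n)))
      linarith
    have h0 := Real.exp_pos (-(c * n))
    have h2 : (1 + Real.exp (-(c * n))) ^ k ≤ Real.exp (Real.exp (-(c * n))) ^ k :=
      pow_le_pow_left₀ (by linarith) h1 k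
    rw [← Real.exp_nat_mul] at h2
    have h3 : (k : ℝ) * Real.exp (-(c * n)) ≤ 1 := by
      have h4 := mul_le_mul_of_nonneg_right hk h0.le
      rw [← Real.exp_add] at h4
      simpa using h4
    refine h2.trans ((Real.exp_le_exp.2 h3).trans ?_)
    have h4 : Real.exp 1 < 2.7182818286 := Real.exp_one_lt_d9
    linarith
  obtain ⟨X, hX, y, hy, hsum⟩ := bar (by omega : 2 ≤ n) (k := k) (s := s) (s₁ := s - δ)
    (δ := δ / 4) hv hr0.le (by linarith) (by positivity) (by linarith) hs1.le (Real.exp_pos _)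
    (Real.exp_pos _).le hkK hQ hM
  refine ⟨X, hX, y, hy, le_trans ?_ hsum⟩
  rw [le_div_iff₀ (by positivity)]
  have h12 := hn₂ n (by omega)
  calc Real.exp (n * (Ph η - ε)) * (12 * Real.exp (-(n * (Ph η - ε / 2))))
      ≤ Real.exp (n * (Ph η - ε)) * (Real.exp (ε / 2 * n) * Real.exp (-(n * (Ph η - ε / 2)))) := by
        gcongr
    _ = 1 := by
        rw [← Real.exp_add, ← Real.exp_add, ← Real.exp_zero]
        congr 1
        ring

lemma sbound_two {n k : ℕ} (hk : 2 ≤ k) {s B : ℝ} (h : SBound n 2 s B) : SBound n k s B := by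
  induction k, hk using Nat.le_induction with
  | base => exact h
  | succ k hk ih => exact sbound_mono ih

/-- the linear programming bound -/
lemma lp_bound {n : ℕ} (hn : 0 < n) {s : ℝ} {g : ℝ → ℝ} (hg : AuxF n s g)
    (hm : 0 < mean n g) : SBound n 2 s (g 1 / mean n g) := by
  classical
  obtain ⟨hg1, hg2, hg3⟩ := hg
  refine scert_bound hn le_rfl (T := fun Q x z => if Q = ∅ then g (inner ℝ x z) else 0)
    ⟨hg1, hg2, fun x z => by simp, fun Q x z => ?_, fun Q hQ X a _ => ?_,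
      fun x hx => ?_, fun S h2 _ hS hs => ?_⟩ hm
  · simp only [real_inner_comm]
  · simp [hQ.ne_empty]
  · unfold Pool.Agent.Y509.KP.contr
    refine (Finset.sum_eq_single ∅ ?_ ?_).trans_le ?_
    · intro Q _ hQ
      simp [hQ]
    · intro h
      exact absurd (Finset.empty_mem_powerset _) h
    · simp [hx]
  · unfold Pool.Agent.Y509.KP.contr
    refine Finset.sum_nonpos fun Q _ => Finset.sum_nonpos fun x hx =>
      Finset.sum_nonpos fun z hz => ?_
    by_cases h3 : Q.card + 2 ≤ 2 ∧ Q ∪ {x, z} = S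
    · rw [if_pos h3]
      beta_reduce
      by_cases h4 : Q = ∅
      · rw [if_pos h4]
        have hxz : x ≠ z := by
          intro hxz
          have h5 := h3.2
          rw [h4, hxz, Finset.pair_eq_singleton, Finset.empty_union] at h5
          rw [← h5, Finset.card_singleton] at h2
          omega
        refine hg3 _ ?_ (hs x hx z hz hxz)
        have h6 := abs_real_inner_le_norm x z
        rw [hS x hx, hS z hz, one_mul] at h6
        exact (abs_le.1 h6).1
      · rw [if_neg h4]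
    · rw [if_neg h3]

/-- larger angles -/
lemma scode_mono {n k : ℕ} {s t : ℝ} (hst : s ≤ t) {X : Finset (E n)} {y : Finset X → ℝ}
    (h : SCode n k s X y) : SCode n k t X y :=
  ⟨h.one, fun S u hu v hv huv ht => h.sep S u hu v hv huv (hst.trans_lt ht), h.nonneg, h.psd⟩

/-- **The rate of the k-point bounds.** -/
theorem kmain {s η : ℝ} (hη : 0 < η) (hs : s * oS η = eS η) {ε : ℝ} (hε : 0 < ε) :
    ∃ δ c : ℝ, 0 < δ ∧ 0 < c ∧ ∀ᶠ n : ℕ in atTop, ∀ t : ℝ, |t - s| ≤ δ → ∀ k : ℕ, 2 ≤ k →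
      (k : ℝ) ≤ Real.exp (c * n) →
      Real.exp (n * (Ph η - ε)) ≤ KS n k t ∧ KS n k t ≤ Real.exp (n * (Ph η + ε)) := by
  have h1 := k1'
  obtain ⟨-, -, -, -, -, -, -, -, -, hO, hE⟩ := h1 η hη
  have hs0 : eS η / oS η = s := by
    rw [← hs]
    field_simp
  have hslt : s < 1 := hs0 ▸ s0_lt_one hη hO hE
  -- lower bound
  obtain ⟨η', hη1, hη2⟩ : ∃ η', η < η' ∧ Ph η - ε / 2 < Ph η' := by
    have hc : ContinuousAt Ph η := k7'.1.continuousAt (Ioi_mem_nhds hη)
    have h2 : ∀ᶠ x in 𝓝[>] η, Ph η - ε / 2 < Ph x :=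
      (hc.tendsto.mono_left nhdsWithin_le_nhds).eventually (lt_mem_nhds (by linarith))
    obtain ⟨x, hx1, hx2⟩ := (h2.and self_mem_nhdsWithin).exists
    exact ⟨x, hx2, hx1⟩
  have hη'0 : 0 < η' := hη.trans hη1
  have hanti := s0_anti low' Pool.Agent.Q154.SL.upc k7' h1 hη hη1
  rw [hs0] at hanti
  obtain ⟨s₁, hs₁, hs₁'⟩ := exists_between hanti
  obtain ⟨c, hc, hlow⟩ := low_k η' s₁ (ε / 2) hη'0 hs₁ (hs₁'.trans hslt) (by positivity)
  obtain ⟨δ, hδ, hmain⟩ := main low' Pool.Agent.Q154.SL.upc k7' h1 hη hs hε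
  refine ⟨min (s - s₁) (min δ ((1 - s) / 2)), c, lt_min (by linarith) (lt_min hδ (by linarith)), hc,
    ?_⟩
  filter_upwards [hlow, hmain, eventually_gt_atTop 0] with n hn hn2 hn0 t ht k hk hkc
  have hd1 : |t - s| ≤ s - s₁ := ht.trans (min_le_left _ _)
  have hd2 : |t - s| ≤ δ := ht.trans ((min_le_right _ _).trans (min_le_left _ _))
  have hd3 : |t - s| ≤ (1 - s) / 2 := ht.trans ((min_le_right _ _).trans (min_le_right _ _))
  rw [abs_le] at hd1 hd2 hd3
  have ht1 : t < 1 := by linarith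
  constructor
  · refine le_KS hk ht1 fun B hB => ?_
    obtain ⟨X, hX, y, hy, hsum⟩ := hn k hkc
    have h2 := hB X hX y (scode_mono (by linarith) hy)
    refine le_trans (Real.exp_le_exp.2 ?_) (hsum.trans h2)
    have : (0 : ℝ) ≤ n := Nat.cast_nonneg n
    nlinarith
  · obtain ⟨g, hg, hm, hb⟩ := hn2.2 t (by linarith)
    exact (KS_le (sbound_two hk (lp_bound hn0 hg hm))).trans hb

end Pool.Agent.Q167.KS
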